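import Mathlib

/-!
# MP_b0e20b_ag, block C (count of the cores): definitions
-/

set_option autoImplicit false

open Finset

namespace Pool.Agent.MPb0eC

variable {d : ℕ}

/-- The indicator function of a set of factors. -/
def ind (J : Finset (Fin d)) : Fin d → ℕ := fun i => if i ∈ J then 1 else 0

/-- The recursion of MacMahon for the numbers of cores. -/
structure Mac (D : (Fin d → ℕ) → ℕ) : Prop where
  zero : D 0 = 1
  step : ∀ a, a ≠ 0 → D a = ∑ J ∈ univ.filter
    (fun J : Finset (Fin d) => (∀ i ∈ J, 1 ≤ a i) ∧ 2 ≤ J.card), (J.card - 1) * D (a - ind J)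

/-- All multi-indices `a ≤ n`. -/
def box (n : Fin d → ℕ) : Finset (Fin d → ℕ) := Fintype.piFinset (fun i => range (n i + 1))

/-- The number of cores of all boxes `a ≤ n`. -/
def Ne (D : (Fin d → ℕ) → ℕ) (n : Fin d → ℕ) : ℕ := ∑ a ∈ box n, D a

/-- The number of complex solutions. -/
def NN (D : (Fin d → ℕ) → ℕ) (n : Fin d → ℕ) : ℕ := D n + ∑ J ∈ univ.filter
    (fun J : Finset (Fin d) => (∀ i ∈ J, 1 ≤ n i) ∧ J ≠ ∅), J.card * Ne D (n - ind J)

/-- The number of flags. -/
def KK (D : (Fin d → ℕ) → ℕ) (n : Fin d → ℕ) : ℕ := D n + ∑ J ∈ univ.filter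
    (fun J : Finset (Fin d) => (∀ i ∈ J, 1 ≤ n i) ∧ J ≠ ∅), Ne D (n - ind J)

theorem ind_le {J : Finset (Fin d)} {a : Fin d → ℕ} : ind J ≤ a ↔ ∀ i ∈ J, 1 ≤ a i := by
  constructor
  · intro h i hi
    have := h i
    simpa [ind, hi] using this
  · intro h i
    by_cases hi : i ∈ J
    · simpa [ind, hi] using h i hi
    · simp [ind, hi]

end Pool.Agent.MPb0eC
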