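import Pool.Agent.Lib.MP_b0e20b_ag_C.FDefs

/-!
# MP_b0e20b_ag, block C: elementary facts on the columns
-/

set_option autoImplicit false

open Finset
open scoped Classical

namespace Pool.Agent.MPb0eC

open MPb0eA

variable {d : ℕ}

theorem aft_add_le {P : Finset (Fin d → ℕ)} {c : (Fin d → ℕ) → ℕ} {A B : Fin d → ℕ}
    (hB : B ∈ P) (h : Rl A B) : aft P c B + c B ≤ aft P c A := by
  unfold aft
  have h1 : B ∉ P.filter fun X => Rl B X := by
    rw [Finset.mem_filter]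
    exact fun h2 => Rl.irrefl B h2.2
  rw [add_comm, ← Finset.sum_insert h1]
  apply Finset.sum_le_sum_of_subset
  intro X hX
  rw [Finset.mem_insert, Finset.mem_filter] at hX
  rw [Finset.mem_filter]
  rcases hX with rfl | hX
  · exact ⟨hB, h⟩
  · exact ⟨hX.1, h.trans hX.2⟩

/-- The first element. -/
theorem exists_first {P : Finset (Fin d → ℕ)} (hP : P.Nonempty) :
    ∃ A ∈ P, ∀ B ∈ P, ¬ Rl B A :=
  exists_rmin (r := Rl) (fun x => Rl.irrefl x) (fun _ _ _ h h' => h.trans h') P hP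

/-- The last element of a set. -/
theorem exists_last {P : Finset (Fin d → ℕ)} (hP : P.Nonempty) :
    ∃ A ∈ P, ∀ B ∈ P, ¬ Rl A B :=
  exists_rmin (r := fun x y => Rl y x) (fun x => Rl.irrefl x) (fun _ _ _ h h' => h'.trans h) P hP

theorem aft_first {G : Type} [AddCommMonoid G] {P : Finset (Fin d → ℕ)} {c : (Fin d → ℕ) → G}
    {A : Fin d → ℕ} (hA : A ∈ P) (h : ∀ B ∈ P, ¬ Rl B A) :
    aft P c A + c A = ∑ B ∈ P, c B := by
  rw [← Finset.sum_erase_add P c hA, aft]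
  congr 1
  apply Finset.sum_congr _ fun _ _ => rfl
  ext X
  rw [Finset.mem_filter, Finset.mem_erase]
  constructor
  · rintro ⟨h1, h2⟩
    refine ⟨?_, h1⟩
    rintro rfl
    exact Rl.irrefl X h2
  · rintro ⟨h1, h2⟩
    rcases Rl.tri h1 with h3 | h3
    · exact absurd h3 (h X h2)
    · exact ⟨h2, h3⟩

theorem aft_last {G : Type} [AddCommMonoid G] {P : Finset (Fin d → ℕ)} {c : (Fin d → ℕ) → G}
    {A : Fin d → ℕ} (h : ∀ B ∈ P, ¬ Rl A B) : aft P c A = 0 := by
  rw [aft, Finset.filter_eq_empty_iff.2 fun {B} hB => h B hB, Finset.sum_empty]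

/-- The value at the next element: `B` is the first element after `A`. -/
theorem aft_next {G : Type} [AddCommMonoid G] {P : Finset (Fin d → ℕ)} {c : (Fin d → ℕ) → G}
    {A B : Fin d → ℕ} (hB : B ∈ P) (hAB : Rl A B)
    (h : ∀ X ∈ P, Rl A X → ¬ Rl X B) : aft P c A = aft P c B + c B := by
  have h1 : B ∉ P.filter fun X => Rl B X := by
    rw [Finset.mem_filter]
    exact fun h2 => Rl.irrefl B h2.2
  unfold aft
  rw [add_comm, ← Finset.sum_insert h1]
  apply Finset.sum_congr _ fun _ _ => rfl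
  ext X
  rw [Finset.mem_filter, Finset.mem_insert, Finset.mem_filter]
  constructor
  · rintro ⟨h2, h3⟩
    by_cases h4 : X = B
    · exact Or.inl h4
    · rcases Rl.tri h4 with h5 | h5
      · exact absurd h5 (h X h2 h3)
      · exact Or.inr ⟨h2, h5⟩
  · rintro (rfl | ⟨h2, h3⟩)
    · exact ⟨hB, hAB⟩
    · exact ⟨h2, hAB.trans h3⟩

/-- The first element after `A`. -/
theorem exists_next {P : Finset (Fin d → ℕ)} {A : Fin d → ℕ} (h : ∃ B ∈ P, Rl A B) :
    ∃ B ∈ P, Rl A B ∧ ∀ X ∈ P, Rl A X → ¬ Rl X B := by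
  obtain ⟨B0, hB0, hAB0⟩ := h
  obtain ⟨B, hB, h1⟩ := exists_first (P := P.filter fun X => Rl A X)
    ⟨B0, Finset.mem_filter.2 ⟨hB0, hAB0⟩⟩
  rw [Finset.mem_filter] at hB
  exact ⟨B, hB.1, hB.2, fun X hX hAX => h1 X (Finset.mem_filter.2 ⟨hX, hAX⟩)⟩

/-- The last element before `A`. -/
theorem exists_prev {P : Finset (Fin d → ℕ)} {A : Fin d → ℕ} (h : ∃ B ∈ P, Rl B A) :
    ∃ B ∈ P, Rl B A ∧ ∀ X ∈ P, Rl B X → ¬ Rl X A := by
  obtain ⟨B0, hB0, hAB0⟩ := h
  obtain ⟨B, hB, h1⟩ := exists_last (P := P.filter fun X => Rl X A)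
    ⟨B0, Finset.mem_filter.2 ⟨hB0, hAB0⟩⟩
  rw [Finset.mem_filter] at hB
  exact ⟨B, hB.1, hB.2, fun X hX hBX hXA => h1 X (Finset.mem_filter.2 ⟨hX, hXA⟩) hBX⟩

/-- The column which contains the step from `t` to `t + 1`: it is the last element `A` (for `Rl`)
with `t < aft P c A + c A`. -/
theorem exists_col {P : Finset (Fin d → ℕ)} {c : (Fin d → ℕ) → ℕ} {t : ℕ}
    (ht : t < ∑ A ∈ P, c A) : ∃ A ∈ P, aft P c A ≤ t ∧ t < aft P c A + c A := by
  have hne : P.Nonempty := by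
    rw [Finset.nonempty_iff_ne_empty]
    rintro rfl
    simp at ht
  obtain ⟨A0, hA0, h0⟩ := exists_first hne
  obtain ⟨A, hA, h1⟩ := exists_last (P := P.filter fun A => t < aft P c A + c A)
    ⟨A0, Finset.mem_filter.2 ⟨hA0, by rw [aft_first hA0 h0]; exact ht⟩⟩
  rw [Finset.mem_filter] at hA
  refine ⟨A, hA.1, ?_, hA.2⟩
  by_cases h2 : ∃ B ∈ P, Rl A B
  · obtain ⟨B, hB, hAB, h3⟩ := exists_next h2
    rw [aft_next hB hAB h3]
    by_contra h4
    rw [not_le] at h4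
    exact h1 B (Finset.mem_filter.2 ⟨hB, h4⟩) hAB
  · rw [aft_last fun B hB hAB => h2 ⟨B, hB, hAB⟩]
    exact Nat.zero_le t

/-- Every value up to the total is in some column. -/
theorem exists_val {P : Finset (Fin d → ℕ)} {c : (Fin d → ℕ) → ℕ} (hne : P.Nonempty) {t : ℕ}
    (ht : t ≤ ∑ A ∈ P, c A) : ∃ A ∈ P, aft P c A ≤ t ∧ t ≤ aft P c A + c A := by
  rcases lt_or_eq_of_le ht with h | h
  · obtain ⟨A, hA, h1, h2⟩ := exists_col h
    exact ⟨A, hA, h1, h2.le⟩
  · obtain ⟨A, hA, h0⟩ := exists_first hne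
    refine ⟨A, hA, ?_, ?_⟩
    · rw [h, ← aft_first hA h0]
      exact Nat.le_add_right _ _
    · rw [aft_first hA h0, h]

/-- Sums over the columns. -/
theorem sum_ext {G : Type} [AddCommMonoid G] (P : Finset (Fin d → ℕ)) (c : (Fin d → ℕ) → ℕ)
    (F : (Fin (d + 1) → ℕ) → G) : ∑ T ∈ ext P c, F T =
      ∑ A ∈ P, ∑ t ∈ Finset.Icc (aft P c A) (aft P c A + c A),
        F (Fin.snoc (α := fun _ => ℕ) A t) := by
  rw [ext, Finset.sum_biUnion]
  · apply Finset.sum_congr rfl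
    intro A _
    rw [Finset.sum_image]
    intro t _ t' _ h
    have h1 := congrFun h (Fin.last d)
    beta_reduce at h1
    rwa [Fin.snoc_last, Fin.snoc_last] at h1
  · intro A _ B _ hAB
    rw [Function.onFun, Finset.disjoint_left]
    intro T hT hT'
    obtain ⟨t, _, rfl⟩ := Finset.mem_image.1 hT
    obtain ⟨t', _, h⟩ := Finset.mem_image.1 hT'
    apply hAB
    have h1 := congrArg (Fin.init (α := fun _ => ℕ)) h
    rw [Fin.init_snoc, Fin.init_snoc] at h1
    exact h1.symm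

end Pool.Agent.MPb0eC
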