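import Pool.Agent.Lib.MP_b0e20b_ag_C.Ineq

/-!
# MP_b0e20b_ag, block C: `3 K ≥ 2 N + 1`
-/

set_option autoImplicit false

open Finset

namespace Pool.Agent.MPb0eC

variable {d : ℕ}

/-- The series of the numbers `NN`. -/
noncomputable def Ns (D : (Fin d → ℕ) → ℕ) : MvPowerSeries (Fin d) ℤ :=
  Ds D + ∑ J : Finset (Fin d), (J.card : ℤ) • (xs J * Es D)

/-- The series of the numbers `KK`. -/
noncomputable def Ks (D : (Fin d → ℕ) → ℕ) : MvPowerSeries (Fin d) ℤ :=
  Ds D + (∑ J : Finset (Fin d), xs J * Es D) - Es D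

theorem coeff_Ns (D : (Fin d → ℕ) → ℕ) (n : Fin d → ℕ) :
    MvPowerSeries.coeff (fs n) (Ns D) = (NN D n : ℤ) := by
  classical
  rw [Ns, map_add, map_sum, NN, Nat.cast_add, Nat.cast_sum, Finset.sum_filter]
  congr 1
  apply Finset.sum_congr rfl
  intro J _
  rw [map_zsmul, coeff_xs_mul, smul_eq_mul, coe_fs, coeff_Es]
  by_cases h1 : J = ∅
  · subst h1; simp
  · by_cases h2 : ∀ i ∈ J, 1 ≤ n i
    · rw [if_pos h2, if_pos ⟨h2, h1⟩, Nat.cast_mul]
    · have h3 : ¬ ∀ i ∈ J, 1 ≤ (fs n) i := h2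
      rw [if_neg h2, if_neg (fun h4 => h2 h4.1), mul_zero]

theorem coeff_Ks (D : (Fin d → ℕ) → ℕ) (n : Fin d → ℕ) :
    MvPowerSeries.coeff (fs n) (Ks D) = (KK D n : ℤ) := by
  classical
  rw [Ks, map_sub, map_add, map_sum, KK, Nat.cast_add, Nat.cast_sum, Finset.sum_filter,
    coeff_Es]
  have h1 : ∀ J : Finset (Fin d), MvPowerSeries.coeff (fs n) (xs J * Es D) =
      (if (∀ i ∈ J, 1 ≤ n i) ∧ J ≠ ∅ then (Ne D (n - ind J) : ℤ) else 0) +
      (if J = ∅ then (Ne D n : ℤ) else 0) := by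
    intro J
    rw [coeff_xs_mul, coe_fs, coeff_Es]
    by_cases h1 : J = ∅
    · subst h1
      have : n - ind (∅ : Finset (Fin d)) = n := by
        funext i; simp [ind]
      simp [this]
    · by_cases h2 : ∀ i ∈ J, 1 ≤ n i
      · rw [if_pos h2, if_pos ⟨h2, h1⟩, if_neg h1, add_zero]
      · rw [if_neg h2, if_neg (fun h4 => h2 h4.1), if_neg h1, add_zero]
  rw [Finset.sum_congr rfl fun J _ => h1 J, Finset.sum_add_distrib,
    Finset.sum_ite_eq', if_pos (Finset.mem_univ _)]
  have h2 : MvPowerSeries.coeff (fs n) (Ds D) = (D n : ℤ) := rfl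
  rw [h2]
  ring

theorem Es_Q {D : (Fin d → ℕ) → ℕ} (h : Mac D) :
    Es D * ∑ J : Finset (Fin d), (1 - (J.card : ℤ)) • xs J = As d := by
  have := Ds_Q h
  calc Es D * ∑ J : Finset (Fin d), (1 - (J.card : ℤ)) • xs J
      = (Ds D * ∑ J : Finset (Fin d), (1 - (J.card : ℤ)) • xs J) * As d := by
        rw [Es]; ring
    _ = As d := by rw [this, one_mul]

/-- `N - K = Ne - 1`. -/
theorem Ns_Ks {D : (Fin d → ℕ) → ℕ} (h : Mac D) : Ns D + As d = Ks D + Es D := by
  rw [← Es_Q h, Ns, Ks, Finset.mul_sum]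
  have h1 : ∀ J : Finset (Fin d), (J.card : ℤ) • (xs J * Es D) +
      Es D * ((1 - (J.card : ℤ)) • xs J) = xs J * Es D := by
    intro J
    rw [mul_smul_comm, mul_comm (Es D), ← add_smul]
    simp
  calc Ds D + ∑ J : Finset (Fin d), (J.card : ℤ) • (xs J * Es D) +
        ∑ J : Finset (Fin d), Es D * ((1 - (J.card : ℤ)) • xs J)
      = Ds D + ∑ J : Finset (Fin d), ((J.card : ℤ) • (xs J * Es D) +
        Es D * ((1 - (J.card : ℤ)) • xs J)) := by
        rw [Finset.sum_add_distrib, add_assoc]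
    _ = Ds D + ∑ J : Finset (Fin d), xs J * Es D := by
        rw [Finset.sum_congr rfl fun J _ => h1 J]
    _ = _ := by ring

theorem NN_add_one {D : (Fin d → ℕ) → ℕ} (h : Mac D) (n : Fin d → ℕ) :
    NN D n + 1 = KK D n + Ne D n := by
  have h1 := congrArg (MvPowerSeries.coeff (fs n)) (Ns_Ks h)
  rw [map_add, map_add, coeff_Ns, coeff_Ks, coeff_Es] at h1
  have h2 : MvPowerSeries.coeff (fs n) (As d) = 1 := rfl
  rw [h2] at h1
  exact_mod_cast h1

/-- The series `x / (1 + x)`. -/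
noncomputable def ys (i : Fin d) : MvPowerSeries (Fin d) ℤ :=
  MvPowerSeries.X i * MvPowerSeries.invOfUnit (1 + MvPowerSeries.X i) 1

theorem ys_eq (i : Fin d) :
    (1 + MvPowerSeries.X i) * ys i = (MvPowerSeries.X i : MvPowerSeries (Fin d) ℤ) := by
  have h1 : (1 + MvPowerSeries.X i : MvPowerSeries (Fin d) ℤ) *
      MvPowerSeries.invOfUnit (1 + MvPowerSeries.X i) 1 = 1 := by
    apply MvPowerSeries.mul_invOfUnit
    simp
  calc (1 + MvPowerSeries.X i) * ys i = MvPowerSeries.X i *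
        ((1 + MvPowerSeries.X i) * MvPowerSeries.invOfUnit (1 + MvPowerSeries.X i) 1) := by
        rw [ys]; ring
    _ = _ := by rw [h1, mul_one]

theorem isUnit_Ps (d : ℕ) : IsUnit (Ps d) := by
  classical
  rw [Ps]
  refine Finset.prod_induction _ IsUnit (fun a b => IsUnit.mul) isUnit_one ?_
  intro i _
  have h1 : (1 + MvPowerSeries.X i : MvPowerSeries (Fin d) ℤ) *
      MvPowerSeries.invOfUnit (1 + MvPowerSeries.X i) 1 = 1 := by
    apply MvPowerSeries.mul_invOfUnit
    simp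
  exact IsUnit.of_mul_eq_one _ h1

theorem card_xs (d : ℕ) : ∑ J : Finset (Fin d), (J.card : ℤ) • xs J = Ps d * ∑ i, ys i := by
  classical
  have h1 : ∀ J : Finset (Fin d), (J.card : ℤ) • xs J = ∑ i, if i ∈ J then xs J else 0 := by
    intro J
    rw [← Finset.sum_filter, Finset.filter_mem_eq_inter, Finset.univ_inter, Finset.sum_const,
      natCast_zsmul]
  rw [Finset.sum_congr rfl fun J _ => h1 J, Finset.sum_comm, Finset.mul_sum]
  apply Finset.sum_congr rfl
  intro i _
  rw [← Finset.sum_filter]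
  have h2 : Ps d * ys i = MvPowerSeries.X i * ∏ j ∈ univ.erase i, (1 + MvPowerSeries.X j) := by
    rw [Ps, ← Finset.mul_prod_erase univ _ (Finset.mem_univ i)]
    calc ((1 + MvPowerSeries.X i) * ∏ j ∈ univ.erase i, (1 + MvPowerSeries.X j)) * ys i
        = ((1 + MvPowerSeries.X i) * ys i) *
          ∏ j ∈ univ.erase i, (1 + MvPowerSeries.X j) := by ring
      _ = _ := by rw [ys_eq]
  rw [h2, Finset.prod_one_add, Finset.mul_sum]
  refine Finset.sum_bij' (fun J _ => J.erase i) (fun J _ => insert i J) ?_ ?_ ?_ ?_ ?_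
  · intro J hJ
    rw [Finset.mem_powerset]
    exact Finset.erase_subset_erase _ (Finset.subset_univ _)
  · intro J hJ
    rw [Finset.mem_filter]
    exact ⟨Finset.mem_univ _, Finset.mem_insert_self _ _⟩
  · intro J hJ
    exact Finset.insert_erase (Finset.mem_filter.1 hJ).2
  · intro J hJ
    apply Finset.erase_insert
    intro h3
    exact Finset.notMem_erase i univ (Finset.mem_powerset.1 hJ h3)
  · intro J hJ
    rw [xs, ← Finset.mul_prod_erase J _ (Finset.mem_filter.1 hJ).2]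

/-- `E (1 - s) = B`. -/
theorem Es_s {D : (Fin d → ℕ) → ℕ} (h : Mac D) : Es D * (1 - ∑ i, ys i) = Bs d := by
  have h1 : ∑ J : Finset (Fin d), (1 - (J.card : ℤ)) • xs J = Ps d * (1 - ∑ i, ys i) := by
    have h2 : ∀ J : Finset (Fin d), (1 - (J.card : ℤ)) • xs J = xs J - (J.card : ℤ) • xs J := by
      intro J
      rw [sub_smul, one_smul]
    rw [Finset.sum_congr rfl fun J _ => h2 J, Finset.sum_sub_distrib, card_xs, ← Ps_eq]
    ring
  have h2 := Es_Q h
  rw [h1, ← Ps_Bs] at h2
  apply (isUnit_Ps d).mul_left_cancel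
  rw [← h2]
  ring

/-- The square of `x i` over `1 + x i`, times `E`. -/
theorem Es_q (D : (Fin d → ℕ) → ℕ) (i : Fin d) :
    Es D * (MvPowerSeries.X i * ys i) = Ds D * Ai i * (MvPowerSeries.X i * MvPowerSeries.X i) := by
  calc Es D * (MvPowerSeries.X i * ys i)
      = Ds D * (((1 + MvPowerSeries.X i) * Ai i) * (MvPowerSeries.X i * ys i)) := by
        rw [Es, Ai_eq]; ring
    _ = Ds D * Ai i * (MvPowerSeries.X i * ((1 + MvPowerSeries.X i) * ys i)) := by ring
    _ = _ := by rw [ys_eq]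

/-- The elementary symmetric sum of order two, doubled. -/
noncomputable def T2 (d : ℕ) : MvPowerSeries (Fin d) ℤ :=
  (∑ i, MvPowerSeries.X i) * (∑ i, MvPowerSeries.X i) - ∑ i, MvPowerSeries.X i * MvPowerSeries.X i

theorem Es_T2 {D : (Fin d → ℕ) → ℕ} (h : Mac D) :
    Es D * (T2 d - 1) + As d = (Ps d - 1 - ∑ i, MvPowerSeries.X i) * Bs d +
      ∑ i, Ds D * Ai i * (MvPowerSeries.X i * MvPowerSeries.X i) *
        (∑ j, MvPowerSeries.X j - MvPowerSeries.X i) := by
  have h1 : (∑ i, MvPowerSeries.X i : MvPowerSeries (Fin d) ℤ) =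
      ∑ i, ys i + ∑ i, MvPowerSeries.X i * ys i := by
    rw [← Finset.sum_add_distrib]
    apply Finset.sum_congr rfl
    intro i _
    calc (MvPowerSeries.X i : MvPowerSeries (Fin d) ℤ) = (1 + MvPowerSeries.X i) * ys i :=
        (ys_eq i).symm
      _ = _ := by ring
  have h2 : Es D * ((∑ i, MvPowerSeries.X i) - 1) =
      -Bs d + ∑ i, Ds D * Ai i * (MvPowerSeries.X i * MvPowerSeries.X i) := by
    rw [← Es_s h, ← Finset.sum_congr rfl fun i _ => Es_q D i, ← Finset.mul_sum, h1]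
    ring
  have h3 : Es D * ∑ i, (MvPowerSeries.X i * MvPowerSeries.X i : MvPowerSeries (Fin d) ℤ) =
      ∑ i, Ds D * Ai i * (MvPowerSeries.X i * MvPowerSeries.X i) *
        (1 + MvPowerSeries.X i) := by
    rw [Finset.mul_sum]
    apply Finset.sum_congr rfl
    intro i _
    rw [← Es_q]
    calc Es D * (MvPowerSeries.X i * MvPowerSeries.X i)
        = Es D * (MvPowerSeries.X i * ((1 + MvPowerSeries.X i) * ys i)) := by rw [ys_eq]
      _ = _ := by ring
  have h4 : ∑ i, Ds D * Ai i * (MvPowerSeries.X i * MvPowerSeries.X i) *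
        (∑ j, MvPowerSeries.X j - MvPowerSeries.X i) =
      (∑ i, Ds D * Ai i * (MvPowerSeries.X i * MvPowerSeries.X i)) *
        (∑ j, MvPowerSeries.X j + 1) -
      ∑ i, Ds D * Ai i * (MvPowerSeries.X i * MvPowerSeries.X i) *
        (1 + MvPowerSeries.X i) := by
    rw [Finset.sum_mul, ← Finset.sum_sub_distrib]
    apply Finset.sum_congr rfl
    intro i _
    ring
  rw [h4, ← h3, ← Ps_Bs]
  have h5 : Es D * (T2 d - 1) = (Es D * ((∑ i, MvPowerSeries.X i) - 1)) *
      (∑ i, MvPowerSeries.X i + 1) -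
      Es D * ∑ i, (MvPowerSeries.X i * MvPowerSeries.X i : MvPowerSeries (Fin d) ℤ) := by
    rw [T2]; ring
  rw [h5, h2]
  ring

/-- Twice the sum over the pairs. -/
theorem T2_eq (d : ℕ) : T2 d = ∑ J ∈ powersetCard 2 (univ : Finset (Fin d)), (2 : ℤ) • xs J := by
  classical
  have h1 : T2 d = ∑ i, ∑ j ∈ univ.erase i,
      (MvPowerSeries.X i * MvPowerSeries.X j : MvPowerSeries (Fin d) ℤ) := by
    rw [T2, Finset.sum_mul, ← Finset.sum_sub_distrib]
    apply Finset.sum_congr rfl
    intro i _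
    rw [Finset.mul_sum, ← Finset.add_sum_erase univ _ (Finset.mem_univ i)]
    ring
  have h2 : ∀ J ∈ powersetCard 2 (univ : Finset (Fin d)), (2 : ℤ) • xs J =
      ∑ i, if i ∈ J then xs J else 0 := by
    intro J hJ
    rw [← Finset.sum_filter, Finset.filter_mem_eq_inter, Finset.univ_inter, Finset.sum_const,
      (Finset.mem_powersetCard.1 hJ).2, ← natCast_zsmul]
    rfl
  rw [h1, Finset.sum_congr rfl h2, Finset.sum_comm]
  apply Finset.sum_congr rfl
  intro i _
  rw [← Finset.sum_filter]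
  refine Finset.sum_bij (fun j _ => {i, j}) ?_ ?_ ?_ ?_
  · intro j hj
    have hij : i ≠ j := fun h3 => Finset.notMem_erase i univ (by rw [← h3] at hj; exact hj)
    rw [Finset.mem_filter, Finset.mem_powersetCard]
    exact ⟨⟨Finset.subset_univ _, Finset.card_pair hij⟩, Finset.mem_insert_self _ _⟩
  · intro j hj k hk h3
    have hj' : j ≠ i := (Finset.mem_erase.1 hj).1
    have h4 : j ∈ ({i, k} : Finset (Fin d)) := by
      rw [← h3]; simp
    rw [Finset.mem_insert, Finset.mem_singleton] at h4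
    exact h4.resolve_left hj'
  · intro J hJ
    rw [Finset.mem_filter, Finset.mem_powersetCard] at hJ
    obtain ⟨⟨-, hc⟩, hi⟩ := hJ
    have h5 : (J.erase i).card = 1 := by rw [Finset.card_erase_of_mem hi, hc]
    obtain ⟨j, hj⟩ := Finset.card_eq_one.1 h5
    have hji : j ∈ J.erase i := by rw [hj]; exact Finset.mem_singleton_self j
    refine ⟨j, Finset.mem_erase.2 ⟨(Finset.mem_erase.1 hji).1, Finset.mem_univ _⟩, ?_⟩
    rw [← hj, Finset.insert_erase hi]
  · intro j hj
    have hij : i ≠ j := fun h3 => Finset.notMem_erase i univ (by rw [← h3] at hj; exact hj)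
    rw [xs, Finset.prod_pair hij]

theorem P_M (d : ℕ) : (∑ J : Finset (Fin d), ((-1 : ℤ) ^ J.card) • xs J) + Ps d =
    2 + T2 d + ∑ J : Finset (Fin d),
      (if J.card ≤ 2 then (0 : ℤ) else ((-1 : ℤ) ^ J.card + 1)) • xs J := by
  classical
  have h1 : ∀ J : Finset (Fin d), ((-1 : ℤ) ^ J.card) • xs J + xs J =
      ((if J = ∅ then 2 else 0) + (if J.card = 2 then (2 : ℤ) • xs J else 0)) +
      (if J.card ≤ 2 then (0 : ℤ) else ((-1 : ℤ) ^ J.card + 1)) • xs J := by
    intro J
    by_cases h1 : J = ∅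
    · subst h1
      simp [xs]
      norm_num
    · have hc : 1 ≤ J.card := Finset.one_le_card.2 (Finset.nonempty_iff_ne_empty.2 h1)
      rw [if_neg h1]
      by_cases h2 : J.card = 1
      · simp [h2]
      · by_cases h3 : J.card = 2
        · simp [h3, two_smul]
        · have h4 : ¬ J.card ≤ 2 := by omega
          rw [if_neg h3, if_neg h4, add_smul, one_smul]
          ring
  rw [Ps_eq, ← Finset.sum_add_distrib, Finset.sum_congr rfl fun J _ => h1 J,
    Finset.sum_add_distrib, Finset.sum_add_distrib, Finset.sum_ite_eq',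
    if_pos (Finset.mem_univ _), ← Finset.sum_filter, Finset.univ_filter_card_eq, ← T2_eq]

theorem P_one (d : ℕ) : Ps d - 1 - ∑ i, MvPowerSeries.X i =
    ∑ J : Finset (Fin d), (if J.card ≤ 1 then (0 : ℤ) else 1) • xs J := by
  classical
  have h0 : (∑ i, MvPowerSeries.X i : MvPowerSeries (Fin d) ℤ) =
      ∑ J : Finset (Fin d), if J.card = 1 then xs J else 0 := by
    rw [← Finset.sum_filter, Finset.univ_filter_card_eq, Finset.powersetCard_one,
      Finset.sum_map]
    apply Finset.sum_congr rfl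
    intro i _
    simp [xs]
  have h1 : ∀ J : Finset (Fin d), xs J = ((if J = ∅ then 1 else 0) +
      (if J.card = 1 then xs J else 0)) + (if J.card ≤ 1 then (0 : ℤ) else 1) • xs J := by
    intro J
    by_cases h1 : J = ∅
    · subst h1
      simp [xs]
    · have hc : 1 ≤ J.card := Finset.one_le_card.2 (Finset.nonempty_iff_ne_empty.2 h1)
      rw [if_neg h1]
      by_cases h2 : J.card = 1
      · simp [h2]
      · have h4 : ¬ J.card ≤ 1 := by omega
        rw [if_neg h2, if_neg h4, one_smul]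
        ring
  rw [h0, Ps_eq]
  nth_rewrite 1 [Finset.sum_congr rfl fun J _ => h1 J]
  rw [Finset.sum_add_distrib, Finset.sum_add_distrib, Finset.sum_ite_eq',
    if_pos (Finset.mem_univ _)]
  ring

theorem Ks_ge {D : (Fin d → ℕ) → ℕ} (h : Mac D) : NNc (Ks D + As d - Es D - Es D) := by
  classical
  have hE : NNc (Es D) := (NNc.ser fun n => by positivity).mul (NNc.ser fun n => by simp)
  have hB : NNc (Bs d) := NNc.ser fun n => by split_ifs <;> simp
  have hA : ∀ i : Fin d, NNc (Ai i) := fun i => NNc.ser fun n => by split_ifs <;> simp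
  have hD : NNc (Ds D) := NNc.ser fun n => by positivity
  have h0 : Ds D = Es D * ∑ J : Finset (Fin d), ((-1 : ℤ) ^ J.card) • xs J := by
    rw [Es, mul_assoc, As_M, mul_one]
  have h1 : Ks D + As d - Es D - Es D = (Es D * (T2 d - 1) + As d) +
      Es D * ∑ J : Finset (Fin d),
        (if J.card ≤ 2 then (0 : ℤ) else ((-1 : ℤ) ^ J.card + 1)) • xs J := by
    have h2 := P_M d
    have h3 : Ks D = Ds D + Ps d * Es D - Es D := by
      rw [Ks, Ps_eq, Finset.sum_mul]
    calc Ks D + As d - Es D - Es D = Es D * ((∑ J : Finset (Fin d), ((-1 : ℤ) ^ J.card) • xs J)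
          + Ps d) - 3 * Es D + As d := by
          rw [h3]
          nth_rewrite 1 [h0]
          ring
      _ = _ := by rw [h2]; ring
  rw [h1, Es_T2 h]
  refine NNc.add (NNc.add ?_ ?_) ?_
  · refine NNc.mul ?_ hB
    rw [P_one]
    refine NNc.sum fun J _ => ?_
    intro m
    rw [map_zsmul, smul_eq_mul]
    refine mul_nonneg ?_ (NNc.xs J m)
    split_ifs <;> norm_num
  · refine NNc.sum fun i _ => NNc.mul ((hD.mul (hA i)).mul ((NNc.X i).mul (NNc.X i))) ?_
    rw [← Finset.add_sum_erase univ _ (Finset.mem_univ i)]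
    have : (MvPowerSeries.X i + ∑ x ∈ univ.erase i, MvPowerSeries.X x -
      MvPowerSeries.X i : MvPowerSeries (Fin d) ℤ) = ∑ x ∈ univ.erase i, MvPowerSeries.X x := by
      ring
    rw [this]
    exact NNc.sum fun j _ => NNc.X j
  · refine hE.mul (NNc.sum fun J _ => ?_)
    intro m
    rw [map_zsmul, smul_eq_mul]
    refine mul_nonneg ?_ (NNc.xs J m)
    split_ifs
    · exact le_refl _
    · rcases Nat.even_or_odd J.card with h2 | h2
      · rw [h2.neg_one_pow]; norm_num
      · rw [h2.neg_one_pow]; norm_num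

/-- The flags are at least two thirds of the solutions. -/
theorem two_thirds {D : (Fin d → ℕ) → ℕ} (h : Mac D) (n : Fin d → ℕ) :
    2 * NN D n + 1 ≤ 3 * KK D n := by
  have h1 := Ks_ge h (fs n)
  rw [map_sub, map_sub, map_add, coeff_Ks, coeff_Es] at h1
  have h2 : MvPowerSeries.coeff (fs n) (As d) = 1 := rfl
  rw [h2] at h1
  have h3 := NN_add_one h n
  omega

end Pool.Agent.MPb0eC
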