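import Pool.Agent.Lib.MP_b0e20b_ag_C.FPow
import Pool.Agent.Lib.MP_b0e20b_ag_C.Two

/-!
# MP_b0e20b_ag, block C: the number of the cores
-/

set_option autoImplicit false

open Finset
open scoped Classical

namespace Pool.Agent.MPb0eC

open MPb0eA

variable {d : ℕ}

/-- In a maximal family all values of all coordinates occur. (Induction: `Fam_image` for the first
coordinates; `ext_cv`, `cv_mem`, `exists_val` for the last one.) -/
theorem Fam_full : ∀ {d : ℕ} {n : Fin d → ℕ} {P : Finset (Fin d → ℕ)}, P ∈ Fam n →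
    ∀ i, ∀ b ≤ n i, ∃ T ∈ P, T i = b := by
  intro d
  induction d with
  | zero => exact fun _ i => i.elim0
  | succ d ih =>
    intro n P hP i
    refine Fin.lastCases (fun b hb => ?_) (fun i b hb => ?_) i
    · have h1 := cv_mem hP
      rw [Finset.mem_finsuppAntidiag] at h1
      have hne : (P.image Fin.init : Finset (Fin d → ℕ)).Nonempty := by
        rw [Finset.image_nonempty, ← Finset.card_pos, (mem_Fam.1 hP).2.2]
        omega
      obtain ⟨A, hA, h2, h3⟩ := exists_val (c := cv P) hne (t := b) (by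
        rw [h1.1]
        exact hb)
      refine ⟨Fin.snoc (α := fun _ => ℕ) A b, ?_, Fin.snoc_last (α := fun _ => ℕ) b A⟩
      rw [← ext_cv hP, mem_ext, Fin.init_snoc, Fin.snoc_last]
      exact ⟨hA, h2, h3⟩
    · obtain ⟨T', hT', h1⟩ := ih (Fam_image hP) i b hb
      obtain ⟨T, hT, rfl⟩ := Finset.mem_image.1 hT'
      exact ⟨T, hT, h1⟩

private theorem FCor_phi {n : Fin d → ℕ} (f : Option ((i : Fin d) × Fin (n i)) → ℚ)
    (T : Fin d → ℕ) :
    ∑ k : (i : Fin d) × Fin (n i), (if T k.1 = (k.2 : ℕ) + 1 then f (some k) else 0) =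
      ∑ i, ∑ l : Fin (n i), (if T i = (l : ℕ) + 1 then f (some ⟨i, l⟩) else 0) :=
  Fintype.sum_sigma _

/-- A core has `1 + ∑ n i` elements. `≤` is `card_le`. `≥`: the span of the differences of the
vectors `e_T = ∑ i, e (i, T i)`, `T ∈ C`, contains all `e (i, b) - e (i, 0)`, `b ≤ n i`
(`Wt.conn` with `G` the quotient by this span, all labels are used), so its dimension is at least
`∑ n i`; it is at most `C.card - 1`. -/
theorem card_core {n : Fin d → ℕ} {C : Finset (Fin d → ℕ)} (h : IsCore n C) :
    C.card = 1 + ∑ i, n i := by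
  obtain ⟨hb, hP, hu, lam, -, hw⟩ := h
  refine le_antisymm (card_le hP fun T hT => mem_box.2 (hb T hT)) ?_
  have hne : C.Nonempty := by
    rw [Finset.nonempty_iff_ne_empty]
    rintro rfl
    have h1 := hw.one
    rw [Finset.sum_empty] at h1
    exact zero_ne_one h1
  obtain ⟨T0, hT0⟩ := hne
  obtain ⟨L, hL⟩ : ∃ L : (Option ((i : Fin d) × Fin (n i)) → ℚ) →ₗ[ℚ] (C → ℚ), ∀ f T,
      L f T = f none + ∑ k : (i : Fin d) × Fin (n i),
        (if T.1 k.1 = (k.2 : ℕ) + 1 then f (some k) else 0) := by
    refine ⟨{ toFun := fun f T => f none + ∑ k : (i : Fin d) × Fin (n i),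
                (if T.1 k.1 = (k.2 : ℕ) + 1 then f (some k) else 0)
              map_add' := ?_
              map_smul' := ?_ }, fun f T => rfl⟩
    · intro f g
      funext T
      simp only [Pi.add_apply]
      have h1 : ∀ k : (i : Fin d) × Fin (n i),
          (if T.1 k.1 = (k.2 : ℕ) + 1 then f (some k) + g (some k) else 0) =
          (if T.1 k.1 = (k.2 : ℕ) + 1 then f (some k) else 0) +
            (if T.1 k.1 = (k.2 : ℕ) + 1 then g (some k) else 0) := by
        intro k
        split_ifs <;> simp
      rw [Finset.sum_congr rfl fun k _ => h1 k, Finset.sum_add_distrib]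
      ring
    · intro c f
      funext T
      simp only [Pi.smul_apply, smul_eq_mul, RingHom.id_apply]
      have h1 : ∀ k : (i : Fin d) × Fin (n i),
          (if T.1 k.1 = (k.2 : ℕ) + 1 then c * f (some k) else 0) =
          c * (if T.1 k.1 = (k.2 : ℕ) + 1 then f (some k) else 0) := by
        intro k
        split_ifs <;> simp
      rw [Finset.sum_congr rfl fun k _ => h1 k, ← Finset.mul_sum]
      ring
  have hinj : Function.Injective L := by
    rw [← LinearMap.ker_eq_bot, LinearMap.ker_eq_bot']
    intro f hf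
    have h1 : ∀ T ∈ C, f none + ∑ i, ∑ l : Fin (n i),
        (if T i = (l : ℕ) + 1 then f (some ⟨i, l⟩) else 0) = 0 := by
      intro T hT
      have h2 := congrFun hf ⟨T, hT⟩
      rw [hL, FCor_phi] at h2
      exact h2
    have h2 := Wt.conn hP hw (fun i b => ∑ l : Fin (n i),
      (if b = (l : ℕ) + 1 then f (some ⟨i, l⟩) else 0)) (by
        intro T hT U hU
        have e1 := h1 T hT
        have e2 := h1 U hU
        linarith)
    have h3 : ∀ k, f (some k) = 0 := by
      rintro ⟨i, l⟩
      obtain ⟨T, hT, hTi⟩ := hu i ((l : ℕ) + 1) l.2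
      obtain ⟨U, hU, hUi⟩ := hu i 0 (Nat.zero_le _)
      have h4 := h2 T hT U hU i
      simp only [hTi, hUi] at h4
      rw [Finset.sum_eq_single l, if_pos rfl, Finset.sum_eq_zero] at h4
      · exact h4
      · intro l' _
        rw [if_neg]
        omega
      · intro l' _ hl'
        rw [if_neg]
        intro h5
        exact hl' (Fin.ext (by omega))
      · intro h5
        exact absurd (Finset.mem_univ _) h5
    have h4 := h1 T0 hT0
    simp only [h3, ite_self, Finset.sum_const_zero, add_zero] at h4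
    funext k
    rcases k with _ | k
    · exact h4
    · exact h3 k
  have h5 := LinearMap.finrank_le_finrank_of_injective hinj
  rw [Module.finrank_fintype_fun_eq_card, Module.finrank_fintype_fun_eq_card,
    Fintype.card_option, Fintype.card_sigma, Fintype.card_coe] at h5
  simp only [Fintype.card_fin] at h5
  omega

/-- `→`: `card_core`, and the weights of `wt_spec` are the given ones (`Wt_unique`). `←`:
`exists_Wt`, `wt_spec`, `Fam_full`. -/
theorem isCore_iff {n : Fin d → ℕ} {C : Finset (Fin d → ℕ)} :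
    IsCore n C ↔ C ∈ Fam n ∧ zc C = 0 := by
  constructor
  · intro h
    have h0 := h
    obtain ⟨hb, hP, hu, lam, hl, hw⟩ := h
    refine ⟨mem_Fam.2 ⟨fun T hT => mem_box.2 (hb T hT), hP, card_core h0⟩, ?_⟩
    rw [zc, Finset.card_eq_zero, Finset.filter_eq_empty_iff]
    intro T hT h1
    rw [Wt_unique hP (wt_spec ⟨lam, hw⟩) hw T hT] at h1
    exact hl T hT h1
  · rintro ⟨h, hz⟩
    have h1 := mem_Fam.1 h
    refine ⟨fun T hT => mem_box.1 (h1.1 hT), h1.2.1, Fam_full h, wt C, fun T hT h2 => ?_,
      wt_spec (exists_Wt h)⟩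
    rw [zc, Finset.card_eq_zero, Finset.filter_eq_empty_iff] at hz
    exact hz hT h2

/-- `0 ^ zc P` is one for `zc P = 0` and zero otherwise. -/
theorem card_cores (n : Fin d → ℕ) : ((cores n).card : ℤ) = Phi (0 : ℤ) 1 n := by
  have h1 : cores n = (Fam n).filter fun P => zc P = 0 := by
    ext C
    rw [mem_cores, isCore_iff, Finset.mem_filter]
  rw [h1, Phi, Finset.card_filter, Nat.cast_sum]
  refine Finset.sum_congr rfl fun P _ => ?_
  rw [one_pow, mul_one]
  by_cases h2 : zc P = 0
  · rw [if_pos h2, h2, pow_zero, Nat.cast_one]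
  · rw [if_neg h2, zero_pow h2, Nat.cast_zero]

private theorem FCor_co (k : ℕ) : co (0 : ℤ) 1 k = 1 - k := by
  rcases k with _ | k
  · rw [co]
    simp
  · rw [co]
    push_cast
    ring

/-- The numbers of the cores satisfy the recursion of MacMahon: `Phi_rec` for `Z = 0`, `U = 1`,
`co 0 1 (j + 1) = - j`. -/
theorem mac_cores (d : ℕ) : Mac (fun n : Fin d → ℕ => (cores n).card) := by
  constructor
  · have h1 := Phi_rec (0 : ℤ) 1 (0 : Fin d → ℕ)
    have h2 : univ.filter (fun J : Finset (Fin d) => ∀ i ∈ J, 1 ≤ (0 : Fin d → ℕ) i) = {∅} := by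
      ext J
      rw [Finset.mem_filter, Finset.mem_singleton]
      constructor
      · rintro ⟨-, h3⟩
        rw [Finset.eq_empty_iff_forall_notMem]
        intro i hi
        have := h3 i hi
        simp at this
      · rintro rfl
        exact ⟨Finset.mem_univ _, fun i hi => absurd hi (Finset.notMem_empty i)⟩
    rw [h2, Finset.sum_singleton, if_pos rfl, FCor_co, Finset.card_empty, ← card_cores] at h1
    have h3 : (0 : Fin d → ℕ) - ind ∅ = 0 := by
      funext i
      simp [ind]
    rw [h3] at h1
    have h4 : ((cores (0 : Fin d → ℕ)).card : ℤ) = 1 := by simpa using h1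
    exact_mod_cast h4
  · intro a ha
    have h1 := Phi_rec (0 : ℤ) 1 a
    rw [if_neg ha] at h1
    have h2 : ∀ J : Finset (Fin d), co (0 : ℤ) 1 J.card * Phi (0 : ℤ) 1 (a - ind J) =
        (1 - (J.card : ℤ)) * ((cores (a - ind J)).card : ℤ) := fun J => by
      rw [FCor_co, card_cores]
    rw [Finset.sum_congr rfl fun J _ => h2 J] at h1
    have h3 : (∅ : Finset (Fin d)) ∈ univ.filter
        (fun J : Finset (Fin d) => ∀ i ∈ J, 1 ≤ a i) :=
      Finset.mem_filter.2 ⟨Finset.mem_univ _, fun i hi => absurd hi (Finset.notMem_empty i)⟩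
    rw [← Finset.add_sum_erase _ _ h3] at h1
    have h4 : a - ind (∅ : Finset (Fin d)) = a := by
      funext i
      simp [ind]
    rw [h4, Finset.card_empty, Nat.cast_zero, sub_zero, one_mul] at h1
    have h5 : ∑ J ∈ (univ.filter (fun J : Finset (Fin d) => ∀ i ∈ J, 1 ≤ a i)).erase ∅,
        (1 - (J.card : ℤ)) * ((cores (a - ind J)).card : ℤ) =
        - ∑ J ∈ univ.filter (fun J : Finset (Fin d) => (∀ i ∈ J, 1 ≤ a i) ∧ 2 ≤ J.card),
          (((J.card - 1) * (cores (a - ind J)).card : ℕ) : ℤ) := by
      rw [← Finset.sum_neg_distrib]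
      have h6 : univ.filter (fun J : Finset (Fin d) => (∀ i ∈ J, 1 ≤ a i) ∧ 2 ≤ J.card) ⊆
          (univ.filter (fun J : Finset (Fin d) => ∀ i ∈ J, 1 ≤ a i)).erase ∅ := by
        intro J hJ
        rw [Finset.mem_filter] at hJ
        rw [Finset.mem_erase, Finset.mem_filter]
        refine ⟨?_, Finset.mem_univ _, hJ.2.1⟩
        rintro rfl
        have := hJ.2.2
        simp at this
      rw [← Finset.sum_subset h6]
      · refine Finset.sum_congr rfl fun J hJ => ?_
        have h7 : 1 ≤ J.card := by
          have := (Finset.mem_filter.1 hJ).2.2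
          omega
        push_cast [Nat.cast_sub h7]
        ring
      · intro J hJ hJ'
        rw [Finset.mem_erase, Finset.mem_filter] at hJ
        have h7 : J.card = 1 := by
          have h8 : 0 < J.card := Finset.card_pos.2 (Finset.nonempty_iff_ne_empty.2 hJ.1)
          have h9 : ¬ 2 ≤ J.card := fun h9 =>
            hJ' (Finset.mem_filter.2 ⟨Finset.mem_univ _, hJ.2.2, h9⟩)
          omega
        rw [h7]
        simp
    rw [h5] at h1
    have h6 : ((cores a).card : ℤ) =
        ((∑ J ∈ univ.filter (fun J : Finset (Fin d) => (∀ i ∈ J, 1 ≤ a i) ∧ 2 ≤ J.card),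
          (J.card - 1) * (cores (a - ind J)).card : ℕ) : ℤ) := by
      rw [Nat.cast_sum]
      linarith
    exact_mod_cast h6

end Pool.Agent.MPb0eC
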