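import Pool.Agent.Lib.MP_b0e20b_ag_C.FCor
import Pool.Agent.Lib.MP_b0e20b_ag_G.CellD

/-!
# MP_b0e20b_ag, block C: the number of the cores of project G
-/

set_option autoImplicit false

open Finset
open scoped Classical

namespace Pool.Agent.MPb0eC

open MPb0eA MPb0eF

variable {d : ℕ}

theorem core_iff {a : Fin d → ℕ} {C : Finset (Fin d → ℕ)} : Core 0 a 0 C ↔ IsCore a C := by
  constructor
  · rintro ⟨hpw, hin, hu, lam, hw, hne⟩
    refine ⟨fun T hT i => (hin T hT i).2, hpw, fun i b hb => hu i b (Nat.zero_le _) hb, lam,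
      hne, hw.one, fun i b hb => ?_⟩
    rw [hw.marg, if_neg]
    intro h
    have : b = 0 := h
    omega
  · rintro ⟨hin, hpw, hu, lam, hne, hw⟩
    refine ⟨hpw, fun T hT i => ⟨Nat.zero_le _, hin T hT i⟩, fun i b _ hb => hu i b hb, lam,
      ⟨hw.one, fun i b => ?_⟩, hne⟩
    rcases Nat.eq_zero_or_pos b with rfl | hb
    · have h1 := hw.le i 0
      simp only [Nat.le_zero] at h1
      rw [h1]
      rfl
    · rw [hw.zero i b hb, if_neg]
      intro h
      have : b = 0 := h
      omega

theorem Dc_eq (a : Fin d → ℕ) : Dc a = (cores a).card := by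
  unfold Dc
  have h1 : {C : Finset (Fin d → ℕ) | Core 0 a 0 C} = ↑(cores a) := by
    ext C
    rw [Set.mem_setOf_eq, Finset.mem_coe, mem_cores, core_iff]
  rw [h1, Set.ncard_coe_finset]

/-- The numbers of the cores satisfy the recursion of MacMahon. -/
theorem mac_Dc (d : ℕ) : Mac (Dc : (Fin d → ℕ) → ℕ) := by
  have h1 : (Dc : (Fin d → ℕ) → ℕ) = fun a => (cores a).card := funext Dc_eq
  rw [h1]
  exact mac_cores d

end Pool.Agent.MPb0eC
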