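import Pool.Agent.Lib.MP_b0e20b_ag_A.AltW
import Pool.Agent.Lib.MP_b0e20b_ag_C.Defs

/-!
# MP_b0e20b_ag, block C: maximal pairwise alternating families (definitions)

`Fam n` are the pairwise alternating families in the box of `n` with `1 + ∑ n i` elements. A family
`Q` of `Fam n`, `n : Fin (d + 1) → ℕ`, is the same as a family `P` of `Fam (init n)` (the
truncations) together with numbers `c A` for `A ∈ P` with sum `n (last)`: the elements of `Q` over
`A` are `snoc A t` with `t` from `aft P c A` to `aft P c A + c A`, `aft P c A` the sum of the `c B`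
for all `B ∈ P` after `A` (for the order `Rl`).
-/

set_option autoImplicit false

open Finset
open scoped Classical

namespace Pool.Agent.MPb0eC

open MPb0eA

variable {d : ℕ}

/-- The maximal pairwise alternating families. -/
noncomputable def Fam (n : Fin d → ℕ) : Finset (Finset (Fin d → ℕ)) :=
  (box n).powerset.filter fun P => Pw P ∧ P.card = 1 + ∑ i, n i

/-- The sum of the values of `c` over the elements of `P` after `A`. -/
noncomputable def aft {G : Type} [AddCommMonoid G] (P : Finset (Fin d → ℕ))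
    (c : (Fin d → ℕ) → G) (A : Fin d → ℕ) : G := ∑ B ∈ P with Rl A B, c B

/-- The family with truncations `P` and multiplicities `c + 1`. -/
noncomputable def ext (P : Finset (Fin d → ℕ)) (c : (Fin d → ℕ) → ℕ) :
    Finset (Fin (d + 1) → ℕ) :=
  P.biUnion fun A => (Finset.Icc (aft P c A) (aft P c A + c A)).image fun t =>
    (Fin.snoc (α := fun _ => ℕ) A t : Fin (d + 1) → ℕ)

/-- The multiplicities minus one. -/
noncomputable def cv (Q : Finset (Fin (d + 1) → ℕ)) : (Fin d → ℕ) →₀ ℕ :=
  Finsupp.onFinset (Q.image Fin.init)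
    (fun A => (Q.filter fun T => (Fin.init T : Fin d → ℕ) = A).card - 1) (by
      intro A hA
      by_contra h
      apply hA
      have : (Q.filter fun T => (Fin.init T : Fin d → ℕ) = A) = ∅ := by
        rw [Finset.filter_eq_empty_iff]
        intro T hT hTA
        exact h (Finset.mem_image.2 ⟨T, hT, hTA⟩)
      rw [this]
      rfl)

/-- The weights on `ext P c` for the weights `lam` on `P`. -/
noncomputable def we (P : Finset (Fin d → ℕ)) (c : (Fin d → ℕ) → ℕ) (lam : (Fin d → ℕ) → ℝ)
    (T : Fin (d + 1) → ℕ) : ℝ :=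
  (if T (Fin.last d) = aft P c (Fin.init T) + c (Fin.init T) then
    aft P lam (Fin.init T) + lam (Fin.init T) else 1) -
  (if T (Fin.last d) = aft P c (Fin.init T) then aft P lam (Fin.init T) else 1)

/-- The weights of a family. -/
noncomputable def wt (P : Finset (Fin d → ℕ)) : (Fin d → ℕ) → ℝ :=
  if h : ∃ lam, Wt P lam then h.choose else 0

/-- The number of elements with weight zero. -/
noncomputable def zc (P : Finset (Fin d → ℕ)) : ℕ := (P.filter fun T => wt P T = 0).card

/-- The counting polynomial of the families, at the point `(Z, U)`. -/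
noncomputable def Phi {R : Type} [CommRing R] (Z U : R) (n : Fin d → ℕ) : R :=
  ∑ P ∈ Fam n, Z ^ zc P * U ^ (∑ i, n i - zc P)

/-- The series `1 / (1 - Z w)`. -/
noncomputable def geo {R : Type} [CommRing R] (Z : R) : PowerSeries R :=
  PowerSeries.mk fun k => Z ^ k

/-- The series `w U ^ 2 / (1 - Z w)`. -/
noncomputable def inc {R : Type} [CommRing R] (Z U : R) : PowerSeries R :=
  PowerSeries.X * PowerSeries.C (U ^ 2) * geo Z

/-- The coefficients of the recursion, `e = U - Z`. -/
def co {R : Type} [CommRing R] (Z U : R) : ℕ → R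
  | 0 => 1
  | j + 1 => ((U - Z) - ((j : R) + 1) * U) * (U - Z) ^ j

/-- `C` is a core of the box of `n`. -/
def IsCore (n : Fin d → ℕ) (C : Finset (Fin d → ℕ)) : Prop :=
  (∀ T ∈ C, ∀ i, T i ≤ n i) ∧ Pw C ∧ (∀ i, ∀ b ≤ n i, ∃ T ∈ C, T i = b) ∧
    ∃ lam : (Fin d → ℕ) → ℝ, (∀ T ∈ C, lam T ≠ 0) ∧ Wt C lam

/-- The cores of the box of `n`. -/
noncomputable def cores (n : Fin d → ℕ) : Finset (Finset (Fin d → ℕ)) :=
  (box n).powerset.filter fun C => IsCore n C

theorem mem_box {n T : Fin d → ℕ} : T ∈ box n ↔ ∀ i, T i ≤ n i := by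
  rw [box, Fintype.mem_piFinset]
  simp only [Finset.mem_range, Nat.lt_succ_iff]

theorem mem_Fam {n : Fin d → ℕ} {P : Finset (Fin d → ℕ)} :
    P ∈ Fam n ↔ P ⊆ box n ∧ Pw P ∧ P.card = 1 + ∑ i, n i := by
  rw [Fam, Finset.mem_filter, Finset.mem_powerset]

theorem mem_cores {n : Fin d → ℕ} {C : Finset (Fin d → ℕ)} : C ∈ cores n ↔ IsCore n C := by
  rw [cores, Finset.mem_filter, Finset.mem_powerset]
  exact ⟨fun h => h.2, fun h => ⟨fun T hT => mem_box.2 (h.1 T hT), h⟩⟩

theorem mem_ext {P : Finset (Fin d → ℕ)} {c : (Fin d → ℕ) → ℕ} {T : Fin (d + 1) → ℕ} :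
    T ∈ ext P c ↔ Fin.init T ∈ P ∧ aft P c (Fin.init T) ≤ T (Fin.last d) ∧
      T (Fin.last d) ≤ aft P c (Fin.init T) + c (Fin.init T) := by
  rw [ext, Finset.mem_biUnion]
  constructor
  · rintro ⟨A, hA, hT⟩
    obtain ⟨t, ht, rfl⟩ := Finset.mem_image.1 hT
    rw [Finset.mem_Icc] at ht
    rw [Fin.init_snoc, Fin.snoc_last]
    exact ⟨hA, ht⟩
  · rintro ⟨h1, h2⟩
    exact ⟨_, h1, Finset.mem_image.2 ⟨T (Fin.last d), Finset.mem_Icc.2 h2, Fin.snoc_init_self T⟩⟩

/-- The elements of a family have only one weight. -/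
theorem Wt_unique {C : Finset (Fin d → ℕ)} {lam lam' : (Fin d → ℕ) → ℝ} (hC : Pw C)
    (h : Wt C lam) (h' : Wt C lam') : ∀ T ∈ C, lam T = lam' T := by
  intro T hT
  have h1 := hC.indep (fun T => lam T - lam' T) (by
    rw [Finset.sum_sub_distrib, h.one, h'.one, sub_self]) (fun i b => by
    rcases Nat.eq_zero_or_pos b with rfl | hb
    · have e1 := h.le i 0
      have e2 := h'.le i 0
      simp only [Nat.le_zero] at e1 e2
      rw [Finset.sum_sub_distrib, e1, e2, sub_self]
    · rw [Finset.sum_sub_distrib, h.zero i b hb, h'.zero i b hb, sub_self]) T hT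
  exact sub_eq_zero.1 h1

theorem wt_spec {P : Finset (Fin d → ℕ)} (h : ∃ lam, Wt P lam) : Wt P (wt P) := by
  rw [wt, dif_pos h]
  exact h.choose_spec

end Pool.Agent.MPb0eC
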