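import Pool.Agent.Lib.MP_b0e20b_ag_C.FZer

/-!
# MP_b0e20b_ag, block C: the recursion for the counting polynomials
-/

set_option autoImplicit false

open Finset
open scoped Classical

namespace Pool.Agent.MPb0eC

open MPb0eA

variable {d : ℕ}

theorem geo_mul {R : Type} [CommRing R] (Z : R) :
    (1 - PowerSeries.X * PowerSeries.C Z) * geo Z = 1 := by
  ext k
  rw [sub_mul, one_mul, mul_assoc, map_sub, PowerSeries.coeff_one]
  cases k with
  | zero =>
    rw [PowerSeries.coeff_zero_X_mul, geo, PowerSeries.coeff_mk, if_pos rfl, pow_zero, sub_zero]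
  | succ k =>
    rw [PowerSeries.coeff_succ_X_mul, PowerSeries.coeff_C_mul, geo, PowerSeries.coeff_mk,
      PowerSeries.coeff_mk, if_neg (Nat.succ_ne_zero k), pow_succ, mul_comm, sub_self]

/-- `e = U - Z` is the same for both points; for `j ≥ 1` divide by `e ^ (j - 1)`:
`(1 - wZ)(e - jU) - j w U ^ 2 = (e - jU) + w e (e - (j + 1) U)`. -/
theorem co_step {R : Type} [CommRing R] (Z U : R) (j : ℕ) :
    (1 - PowerSeries.X * PowerSeries.C Z) *
      co (PowerSeries.C Z + inc Z U) (PowerSeries.C U + inc Z U) j =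
      PowerSeries.C (co Z U j) + PowerSeries.X * PowerSeries.C (co Z U (j + 1)) := by
  have hg := geo_mul Z
  cases j with
  | zero =>
    simp only [co, Nat.cast_zero, zero_add, one_mul, pow_zero, mul_one, map_sub, map_one]
    ring
  | succ j =>
    simp only [co, inc, map_sub, map_mul, map_add, map_pow, map_natCast, map_one, Nat.cast_add,
      Nat.cast_one]
    have e1 : (PowerSeries.C U + PowerSeries.X * PowerSeries.C U ^ 2 * geo Z) -
        (PowerSeries.C Z + PowerSeries.X * PowerSeries.C U ^ 2 * geo Z) =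
        PowerSeries.C U - PowerSeries.C Z := by ring
    rw [e1]
    linear_combination (-(((j : ℕ) : PowerSeries R) + 1) * PowerSeries.X * PowerSeries.C U ^ 2 *
      (PowerSeries.C U - PowerSeries.C Z) ^ j) * hg

theorem Phi_zero {R : Type} [CommRing R] (Z U : R) (n : Fin 0 → ℕ) : Phi Z U n = 1 := by
  have hP : ∀ P : Finset (Fin 0 → ℕ), P ∈ Fam n ↔ P = {n} := by
    intro P
    rw [mem_Fam]
    constructor
    · rintro ⟨_, _, h3⟩
      rw [Finset.univ_eq_empty, Finset.sum_empty, add_zero] at h3
      obtain ⟨T, rfl⟩ := Finset.card_eq_one.1 h3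
      rw [Subsingleton.elim T n]
    · rintro rfl
      refine ⟨?_, ?_, ?_⟩
      · rw [Finset.singleton_subset_iff, mem_box]
        exact fun i => i.elim0
      · intro T hT V hV
        rw [Finset.mem_singleton] at hT hV
        subst hT
        subst hV
        intro i
        exact i.elim0
      · simp
  have hF : Fam n = {{n}} := by
    ext P
    rw [hP, Finset.mem_singleton]
  have hw : Wt ({n} : Finset (Fin 0 → ℕ)) (wt {n}) :=
    wt_spec (exists_Wt (n := n) ((hP _).2 rfl))
  have h1 := hw.one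
  rw [Finset.sum_singleton] at h1
  have hz : zc ({n} : Finset (Fin 0 → ℕ)) = 0 := by
    rw [zc, Finset.card_eq_zero, Finset.filter_eq_empty_iff]
    intro T hT
    rw [Finset.mem_singleton] at hT
    rw [hT, h1]
    exact one_ne_zero
  rw [Phi, hF, Finset.sum_singleton, hz, Finset.univ_eq_empty, Finset.sum_empty]
  simp

/-- `sum_Fam`, `term_ext`, `PowerSeries.coeff_prod`, `prod_fac`. -/
theorem Phi_succ {R : Type} [CommRing R] (Z U : R) (n : Fin (d + 1) → ℕ) :
    Phi Z U n = PowerSeries.coeff (n (Fin.last d))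
      (Phi (PowerSeries.C Z + inc Z U) (PowerSeries.C U + inc Z U) (Fin.init n) * geo Z) := by
  rw [Phi, sum_Fam, Phi, Finset.sum_mul, map_sum]
  refine Finset.sum_congr rfl fun P hP => ?_
  rw [← prod_fac Z U hP, PowerSeries.coeff_prod]
  exact Finset.sum_congr rfl fun c hc => term_ext Z U hP hc

private theorem sum_subsets {M : Type} [AddCommMonoid M] (f : Finset (Fin (d + 1)) → M) :
    ∑ J, f J = ∑ J' : Finset (Fin d), (f (J'.map Fin.castSuccEmb) +
      f (insert (Fin.last d) (J'.map Fin.castSuccEmb))) := by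
  have h0 : (Fin.last d) ∉ (univ : Finset (Fin d)).map Fin.castSuccEmb := by
    intro h
    obtain ⟨i, _, hi⟩ := Finset.mem_map.1 h
    exact absurd hi (Fin.castSucc_lt_last i).ne
  rw [← Finset.powerset_univ (α := Fin (d + 1)), Fin.univ_castSuccEmb, Finset.cons_eq_insert,
    Finset.sum_powerset_insert h0, ← Finset.sum_add_distrib]
  symm
  refine Finset.sum_bij (fun J' _ => J'.map Fin.castSuccEmb) ?_ ?_ ?_ ?_
  · intro J' _
    rw [Finset.mem_powerset]
    exact Finset.map_subset_map.2 (Finset.subset_univ _)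
  · intro a _ b _ h
    exact Finset.map_injective _ h
  · intro t ht
    rw [Finset.mem_powerset, Finset.subset_map_iff] at ht
    obtain ⟨u, _, hu⟩ := ht
    exact ⟨u, Finset.mem_univ _, hu.symm⟩
  · intro _ _
    rfl

private theorem mem_cs {J : Finset (Fin d)} {i : Fin d} :
    i.castSucc ∈ J.map Fin.castSuccEmb ↔ i ∈ J := by
  rw [Finset.mem_map]
  constructor
  · rintro ⟨k, hk, h⟩
    have : k = i := Fin.castSucc_injective d h
    rwa [← this]
  · intro h
    exact ⟨i, h, rfl⟩

private theorem last_cs {J : Finset (Fin d)} : Fin.last d ∉ J.map Fin.castSuccEmb := by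
  intro h
  obtain ⟨i, _, hi⟩ := Finset.mem_map.1 h
  exact absurd hi (Fin.castSucc_lt_last i).ne

private theorem init_sub_one (n : Fin (d + 1) → ℕ) (J : Finset (Fin d)) :
    (Fin.init (n - ind (J.map Fin.castSuccEmb)) : Fin d → ℕ) = Fin.init n - ind J := by
  funext i
  have h : ind (J.map Fin.castSuccEmb) i.castSucc = ind J i := by
    rw [ind, ind]
    by_cases h : i ∈ J
    · rw [if_pos h, if_pos (mem_cs.2 h)]
    · rw [if_neg h, if_neg (fun h1 => h (mem_cs.1 h1))]
  rw [Fin.init, Pi.sub_apply, Pi.sub_apply, h, Fin.init]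

private theorem init_sub_two (n : Fin (d + 1) → ℕ) (J : Finset (Fin d)) :
    (Fin.init (n - ind (insert (Fin.last d) (J.map Fin.castSuccEmb))) : Fin d → ℕ) =
      Fin.init n - ind J := by
  funext i
  have h : ind (insert (Fin.last d) (J.map Fin.castSuccEmb)) i.castSucc = ind J i := by
    rw [ind, ind]
    by_cases h : i ∈ J
    · rw [if_pos h, if_pos (Finset.mem_insert_of_mem (mem_cs.2 h))]
    · rw [if_neg h, if_neg]
      intro h1
      rcases Finset.mem_insert.1 h1 with h2 | h2
      · exact absurd h2 (Fin.castSucc_lt_last i).ne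
      · exact h (mem_cs.1 h2)
  rw [Fin.init, Pi.sub_apply, Pi.sub_apply, h, Fin.init]

private theorem last_sub_one (n : Fin (d + 1) → ℕ) (J : Finset (Fin d)) :
    (n - ind (J.map Fin.castSuccEmb)) (Fin.last d) = n (Fin.last d) := by
  rw [Pi.sub_apply, ind, if_neg last_cs, Nat.sub_zero]

private theorem last_sub_two (n : Fin (d + 1) → ℕ) (J : Finset (Fin d)) :
    (n - ind (insert (Fin.last d) (J.map Fin.castSuccEmb))) (Fin.last d) =
      n (Fin.last d) - 1 := by
  rw [Pi.sub_apply, ind, if_pos (Finset.mem_insert_self _ _)]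

private theorem cond_one (n : Fin (d + 1) → ℕ) (J : Finset (Fin d)) :
    (∀ i ∈ J.map Fin.castSuccEmb, 1 ≤ n i) ↔ ∀ i ∈ J, 1 ≤ (Fin.init n : Fin d → ℕ) i := by
  constructor
  · intro h i hi
    exact h _ (mem_cs.2 hi)
  · intro h i hi
    obtain ⟨k, hk, rfl⟩ := Finset.mem_map.1 hi
    exact h k hk

private theorem cond_two (n : Fin (d + 1) → ℕ) (J : Finset (Fin d)) :
    (∀ i ∈ insert (Fin.last d) (J.map Fin.castSuccEmb), 1 ≤ n i) ↔
      1 ≤ n (Fin.last d) ∧ ∀ i ∈ J, 1 ≤ (Fin.init n : Fin d → ℕ) i := by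
  rw [← cond_one, Finset.forall_mem_insert]

private theorem key_one {R : Type} [CommRing R] (Z U : R) (j : ℕ) (F : PowerSeries R) :
    co (PowerSeries.C Z + inc Z U) (PowerSeries.C U + inc Z U) j * F =
      PowerSeries.C (co Z U j) * (F * geo Z) +
        PowerSeries.X * (PowerSeries.C (co Z U (j + 1)) * (F * geo Z)) := by
  have h1 := co_step Z U j
  have h2 := geo_mul Z
  linear_combination (F * geo Z) * h1 - (co (PowerSeries.C Z + inc Z U)
    (PowerSeries.C U + inc Z U) j * F) * h2

private theorem key_two {R : Type} [CommRing R] (Z U : R) (n : Fin (d + 1) → ℕ)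
    (J : Finset (Fin d)) :
    (if ∀ i ∈ J.map Fin.castSuccEmb, 1 ≤ n i then
      co Z U (J.map Fin.castSuccEmb).card * Phi Z U (n - ind (J.map Fin.castSuccEmb)) else 0) +
    (if ∀ i ∈ insert (Fin.last d) (J.map Fin.castSuccEmb), 1 ≤ n i then
      co Z U (insert (Fin.last d) (J.map Fin.castSuccEmb)).card *
        Phi Z U (n - ind (insert (Fin.last d) (J.map Fin.castSuccEmb))) else 0) =
    PowerSeries.coeff (n (Fin.last d)) (if ∀ i ∈ J, 1 ≤ (Fin.init n : Fin d → ℕ) i then
      co (PowerSeries.C Z + inc Z U) (PowerSeries.C U + inc Z U) J.card *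
        Phi (PowerSeries.C Z + inc Z U) (PowerSeries.C U + inc Z U) (Fin.init n - ind J)
      else 0) := by
  by_cases hJ : ∀ i ∈ J, 1 ≤ (Fin.init n : Fin d → ℕ) i
  · rw [if_pos hJ, if_pos ((cond_one n J).2 hJ), key_one, map_add, PowerSeries.coeff_C_mul,
      Phi_succ, init_sub_one, last_sub_one, Finset.card_map]
    congr 1
    rw [Phi_succ, init_sub_two, last_sub_two, Finset.card_insert_of_notMem last_cs,
      Finset.card_map]
    rcases Nat.eq_zero_or_pos (n (Fin.last d)) with h0 | h0
    · rw [if_neg (fun h => by have := ((cond_two n J).1 h).1; omega), h0,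
        PowerSeries.coeff_zero_X_mul]
    · rw [if_pos ((cond_two n J).2 ⟨h0, hJ⟩)]
      obtain ⟨m, hm⟩ : ∃ m, n (Fin.last d) = m + 1 := ⟨n (Fin.last d) - 1, by omega⟩
      rw [hm, PowerSeries.coeff_succ_X_mul, PowerSeries.coeff_C_mul, Nat.add_sub_cancel]
  · rw [if_neg hJ, if_neg (fun h => hJ ((cond_one n J).1 h)),
      if_neg (fun h => hJ ((cond_two n J).1 h).2), map_zero, add_zero]

/-- Induction on `d`. The sets `J ⊆ Fin (d + 1)` are `J'` or `J'` with `last`, `J' ⊆ Fin d`
(`Fin.castSucc`). With `Phi_succ` the sum is the coefficient of `w ^ (n last)` in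
`∑ J', (co Z U |J'| + w * co Z U (|J'| + 1)) * Phi Z' U' (init n - ind J') * geo Z`, by `co_step` and
`geo_mul` this is `∑ J', co Z' U' |J'| * Phi Z' U' (init n - ind J')`, which is one or zero. -/
theorem Phi_rec : ∀ {d : ℕ} {R : Type} [CommRing R] (Z U : R) (n : Fin d → ℕ),
    ∑ J ∈ univ.filter (fun J : Finset (Fin d) => ∀ i ∈ J, 1 ≤ n i),
      co Z U J.card * Phi Z U (n - ind J) = if n = 0 then 1 else 0 := by
  intro d
  induction d with
  | zero =>
    intro R _ Z U n
    have h1 : (univ.filter (fun J : Finset (Fin 0) => ∀ i ∈ J, 1 ≤ n i)) = {∅} := by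
      ext J
      rw [Finset.mem_filter, Finset.mem_singleton]
      constructor
      · intro _
        exact Subsingleton.elim _ _
      · rintro rfl
        exact ⟨Finset.mem_univ _, fun i => i.elim0⟩
    rw [h1, Finset.sum_singleton, Phi_zero, Finset.card_empty, if_pos (Subsingleton.elim _ _)]
    simp only [co, mul_one]
  | succ d ih =>
    intro R _ Z U n
    rw [Finset.sum_filter, sum_subsets, Finset.sum_congr rfl fun J _ => key_two Z U n J,
      ← map_sum, ← Finset.sum_filter, ih]
    by_cases h0 : (Fin.init n : Fin d → ℕ) = 0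
    · rw [if_pos h0, PowerSeries.coeff_one]
      by_cases h1 : n (Fin.last d) = 0
      · rw [if_pos h1, if_pos]
        funext i
        refine Fin.lastCases h1 (fun k => ?_) i
        exact congrFun h0 k
      · rw [if_neg h1, if_neg]
        intro h
        exact h1 (congrFun h _)
    · rw [if_neg h0, map_zero, if_neg]
      rintro rfl
      exact h0 rfl

end Pool.Agent.MPb0eC
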