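import Pool.Agent.Lib.MP_b0e20b_ag_C.FCol

/-!
# MP_b0e20b_ag, block C: the structure of the maximal families
-/

set_option autoImplicit false

open Finset
open scoped Classical

namespace Pool.Agent.MPb0eC

open MPb0eA

variable {d : ℕ}

/-- Elements of a part of a staircase which are not the lowest of their column have different last
coordinates: let `T`, `T'` be such elements with the same last coordinate `t`,
`Rl (init T) (init T')`; the lowest element of the column of `T` is smaller than `t`, but by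
`Alt.anti` it is at least `t`. So for `S ⊆ Q`, `Q` alternating, closed under going down in the columns, with all last coordinates in
`[x, y]`: number of the elements = number of the columns + number of the elements which are not the
lowest of their column `≤` number of the columns `+ (y - x)`. -/
theorem card_stairs {Q : Finset (Fin (d + 1) → ℕ)} (hQ : Pw Q) (K : Finset (Fin d → ℕ))
    (hK : K ⊆ Q.image Fin.init) (x y : ℕ) (hxy : x ≤ y)
    (h : ∀ T ∈ Q, Fin.init T ∈ K → x ≤ T (Fin.last d) ∧ T (Fin.last d) ≤ y) :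
    (Q.filter fun T => (Fin.init T : Fin d → ℕ) ∈ K).card ≤ K.card + (y - x) := by
  have hanti : ∀ T ∈ Q, ∀ U ∈ Q, Rl (Fin.init T) (Fin.init U) →
      U (Fin.last d) ≤ T (Fin.last d) := fun T hT U hU h1 => (hQ T hT U hU).anti h1
  set F := Q.filter fun T => (Fin.init T : Fin d → ℕ) ∈ K with hF
  rw [← Finset.card_filter_add_card_filter_not (s := F)
    (fun T => ∀ U ∈ Q, (Fin.init U : Fin d → ℕ) = Fin.init T →
      T (Fin.last d) ≤ U (Fin.last d))]
  apply Nat.add_le_add
  · apply Finset.card_le_card_of_injOn (fun T => (Fin.init T : Fin d → ℕ))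
    · intro T hT
      rw [Finset.mem_coe, Finset.mem_filter, hF, Finset.mem_filter] at hT
      exact hT.1.2
    · intro T hT U hU hTU
      rw [Finset.mem_coe, Finset.mem_filter, hF, Finset.mem_filter] at hT hU
      beta_reduce at hTU
      exact eq_of_init_last hTU (le_antisymm (hT.2 U hU.1.1 hTU.symm) (hU.2 T hT.1.1 hTU))
  · have h1 : (Finset.Ioc x y).card = y - x := Nat.card_Ioc x y
    rw [← h1]
    apply Finset.card_le_card_of_injOn (fun T => T (Fin.last d))
    · intro T hT
      rw [Finset.mem_coe, Finset.mem_filter, hF, Finset.mem_filter] at hT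
      obtain ⟨⟨hTQ, hTK⟩, h2⟩ := hT
      simp only [not_forall, not_le] at h2
      obtain ⟨U, hU, hUT, hlt⟩ := h2
      have h3 := h U hU (by rw [hUT]; exact hTK)
      have h4 := h T hTQ hTK
      rw [Finset.mem_coe, Finset.mem_Ioc]
      change x < T (Fin.last d) ∧ T (Fin.last d) ≤ y
      omega
    · intro T hT U hU hTU
      rw [Finset.mem_coe, Finset.mem_filter, hF, Finset.mem_filter] at hT hU
      beta_reduce at hTU
      obtain ⟨⟨hTQ, hTK⟩, h2⟩ := hT
      obtain ⟨⟨hUQ, hUK⟩, h3⟩ := hU
      simp only [not_forall, not_le] at h2 h3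
      obtain ⟨T', hT', hTi, hTl⟩ := h2
      obtain ⟨U', hU', hUi, hUl⟩ := h3
      by_cases h4 : (Fin.init T : Fin d → ℕ) = Fin.init U
      · exact eq_of_init_last h4 hTU
      · exfalso
        rcases Rl.tri h4 with h5 | h5
        · have := hanti T' hT' U hUQ (by rw [hTi]; exact h5)
          omega
        · have := hanti U' hU' T hTQ (by rw [hUi]; exact h5)
          omega

/-- By induction on `d` and `card_stairs` with `K` all truncations, `x = 0`, `y = n (last)`. -/
theorem card_le {n : Fin d → ℕ} {P : Finset (Fin d → ℕ)} (hP : Pw P) (hb : P ⊆ box n) :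
    P.card ≤ 1 + ∑ i, n i := by
  induction d with
  | zero =>
    have : P.card ≤ 1 := by
      rw [Finset.card_le_one]
      intro a _ b _
      exact Subsingleton.elim a b
    omega
  | succ d ih =>
    have h1 : P.image Fin.init ⊆ box (Fin.init n : Fin d → ℕ) := by
      intro A hA
      obtain ⟨T, hT, rfl⟩ := Finset.mem_image.1 hA
      rw [mem_box]
      intro i
      exact mem_box.1 (hb hT) i.castSucc
    have h2 := ih (n := Fin.init n) hP.image h1
    have h3 := card_stairs hP (P.image Fin.init) (Finset.Subset.refl _) 0 (n (Fin.last d))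
      (Nat.zero_le _) (fun T hT _ => ⟨Nat.zero_le _, mem_box.1 (hb hT) (Fin.last d)⟩)
    have h4 : (P.filter fun T => (Fin.init T : Fin d → ℕ) ∈ P.image Fin.init) = P := by
      rw [Finset.filter_true_of_mem]
      intro T hT
      exact Finset.mem_image_of_mem _ hT
    rw [h4] at h3
    rw [Fin.sum_univ_castSucc]
    have h5 : ∑ i : Fin d, (Fin.init n : Fin d → ℕ) i = ∑ i : Fin d, n i.castSucc := rfl
    rw [← h5]
    omega

/-- The converse of `Alt.init` and `Alt.anti`. -/
theorem alt_of {T U : Fin (d + 1) → ℕ} (h : Alt (Fin.init T) (Fin.init U))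
    (h1 : Rl (Fin.init T) (Fin.init U) → U (Fin.last d) ≤ T (Fin.last d))
    (h2 : Rl (Fin.init U) (Fin.init T) → T (Fin.last d) ≤ U (Fin.last d)) : Alt T U := by
  intro i j hij hi hj hk
  induction j using Fin.lastCases with
  | last =>
    induction i using Fin.lastCases with
    | last => exact absurd hij (lt_irrefl _)
    | cast i =>
      have h3 : ∀ k, i < k → (Fin.init T : Fin d → ℕ) k = Fin.init U k := fun k hik =>
        hk k.castSucc (Fin.castSucc_lt_castSucc_iff.2 hik) (Fin.castSucc_lt_last k)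
      constructor
      · intro h4
        have h5 := h1 ⟨i, h4, h3⟩
        omega
      · intro h4
        rcases lt_or_gt_of_ne hi with h5 | h5
        · exact h5
        · have h6 := h2 ⟨i, h5, fun k hik => (h3 k hik).symm⟩
          omega
  | cast j =>
    induction i using Fin.lastCases with
    | last => exact absurd hij (not_lt.2 (Fin.le_last _))
    | cast i =>
      exact h i j (Fin.castSucc_lt_castSucc_iff.1 hij) hi hj fun k h3 h4 =>
        hk k.castSucc (Fin.castSucc_lt_castSucc_iff.2 h3) (Fin.castSucc_lt_castSucc_iff.2 h4)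

/-- `aft_add_le` gives the staircase, the number of elements is the sum of the `c A + 1`, and the
last coordinates are at most `∑ c`. -/
theorem ext_mem {n : Fin (d + 1) → ℕ} {P : Finset (Fin d → ℕ)} {c : (Fin d → ℕ) →₀ ℕ}
    (hP : P ∈ Fam (Fin.init n)) (hc : c ∈ finsuppAntidiag P (n (Fin.last d))) :
    ext P c ∈ Fam n := by
  rw [mem_Fam] at hP ⊢
  rw [Finset.mem_finsuppAntidiag] at hc
  obtain ⟨hb, hPw, hcard⟩ := hP
  obtain ⟨hs, _⟩ := hc
  refine ⟨?_, ?_, ?_⟩
  · intro T hT
    rw [mem_ext] at hT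
    rw [mem_box]
    intro i
    induction i using Fin.lastCases with
    | last =>
      have h1 : aft P c (Fin.init T) + c (Fin.init T) ≤ n (Fin.last d) := by
        rw [← hs, aft]
        have h2 : (Fin.init T : Fin d → ℕ) ∉ P.filter fun X => Rl (Fin.init T) X := by
          rw [Finset.mem_filter]
          exact fun h3 => Rl.irrefl _ h3.2
        rw [add_comm, ← Finset.sum_insert h2]
        apply Finset.sum_le_sum_of_subset
        intro X hX
        rcases Finset.mem_insert.1 hX with rfl | h3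
        · exact hT.1
        · exact (Finset.mem_filter.1 h3).1
      exact hT.2.2.trans h1
    | cast i => exact mem_box.1 (hb hT.1) i
  · intro T hT U hU
    rw [mem_ext] at hT hU
    refine alt_of (hPw _ hT.1 _ hU.1) (fun h1 => ?_) (fun h1 => ?_)
    · exact hU.2.2.trans ((aft_add_le hU.1 h1).trans hT.2.1)
    · exact hT.2.2.trans ((aft_add_le hT.1 h1).trans hU.2.1)
  · rw [Finset.card_eq_sum_ones, sum_ext]
    have h1 : ∀ A ∈ P, ∑ _t ∈ Finset.Icc (aft P c A) (aft P c A + c A), 1 = c A + 1 := by
      intro A _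
      rw [← Finset.card_eq_sum_ones, Nat.card_Icc]
      omega
    rw [Finset.sum_congr rfl h1, Finset.sum_add_distrib, hs, ← Finset.card_eq_sum_ones, hcard,
      Fin.sum_univ_castSucc]
    have h5 : ∑ i : Fin d, (Fin.init n : Fin d → ℕ) i = ∑ i : Fin d, n i.castSucc := rfl
    rw [← h5]
    ring

theorem image_ext (P : Finset (Fin d → ℕ)) (c : (Fin d → ℕ) → ℕ) :
    (ext P c).image Fin.init = P := by
  ext A
  rw [Finset.mem_image]
  constructor
  · rintro ⟨T, hT, rfl⟩
    exact (mem_ext.1 hT).1
  · intro hA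
    refine ⟨Fin.snoc (α := fun _ => ℕ) A (aft P c A), ?_, ?_⟩
    · rw [mem_ext, Fin.init_snoc, Fin.snoc_last]
      exact ⟨hA, le_refl _, Nat.le_add_right _ _⟩
    · exact Fin.init_snoc _ _

theorem cv_apply (Q : Finset (Fin (d + 1) → ℕ)) (A : Fin d → ℕ) :
    cv Q A = (Q.filter fun T => (Fin.init T : Fin d → ℕ) = A).card - 1 := rfl

private theorem FStr_inj (A : Fin d → ℕ) :
    Function.Injective fun t : ℕ => (Fin.snoc (α := fun _ => ℕ) A t : Fin (d + 1) → ℕ) := by
  intro t t' h
  have h1 := congrFun h (Fin.last d)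
  beta_reduce at h1
  rwa [Fin.snoc_last, Fin.snoc_last] at h1

private theorem FStr_col {P : Finset (Fin d → ℕ)} {c : (Fin d → ℕ) → ℕ} {A : Fin d → ℕ}
    (hA : A ∈ P) : ((ext P c).filter fun T => (Fin.init T : Fin d → ℕ) = A).card = c A + 1 := by
  have h1 : ((ext P c).filter fun T => (Fin.init T : Fin d → ℕ) = A) =
      (Finset.Icc (aft P c A) (aft P c A + c A)).image fun t =>
        (Fin.snoc (α := fun _ => ℕ) A t : Fin (d + 1) → ℕ) := by
    ext T
    rw [Finset.mem_filter, mem_ext, Finset.mem_image]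
    constructor
    · rintro ⟨⟨_, h2, h3⟩, rfl⟩
      exact ⟨T (Fin.last d), Finset.mem_Icc.2 ⟨h2, h3⟩, Fin.snoc_init_self T⟩
    · rintro ⟨t, ht, rfl⟩
      rw [Finset.mem_Icc] at ht
      rw [Fin.init_snoc, Fin.snoc_last]
      exact ⟨⟨hA, ht⟩, rfl⟩
  rw [h1, Finset.card_image_of_injective _ (FStr_inj A), Nat.card_Icc]
  omega

theorem cv_ext {P : Finset (Fin d → ℕ)} {c : (Fin d → ℕ) →₀ ℕ} (hc : c.support ⊆ P) :
    cv (ext P c) = c := by
  ext A
  rw [cv_apply]
  by_cases hA : A ∈ P
  · rw [FStr_col hA]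
    rfl
  · have h1 : c A = 0 := by
      by_contra h2
      exact hA (hc (Finsupp.mem_support_iff.2 h2))
    have h2 : ((ext P c).filter fun T => (Fin.init T : Fin d → ℕ) = A) = ∅ := by
      rw [Finset.filter_eq_empty_iff]
      rintro T hT rfl
      exact hA (mem_ext.1 hT).1
    rw [h1, h2]
    rfl

/-- The equalities in the count of the elements of `Q`. -/
private theorem FStr_eq {n : Fin (d + 1) → ℕ} {Q : Finset (Fin (d + 1) → ℕ)} (hQ : Q ∈ Fam n)
    {A : Fin d → ℕ} (hA : A ∈ Q.image Fin.init) :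
    (Q.image Fin.init).card = 1 + ∑ i, (Fin.init n : Fin d → ℕ) i ∧
    ∃ m M : ℕ, m ≤ M ∧ (∀ T ∈ Q, (Fin.init T : Fin d → ℕ) = A → m ≤ T (Fin.last d) ∧
      T (Fin.last d) ≤ M) ∧
      (Q.filter fun T => Rl A (Fin.init T)).card =
        ((Q.image Fin.init).filter fun B => Rl A B).card + m ∧
      (Q.filter fun T => (Fin.init T : Fin d → ℕ) = A).card = 1 + (M - m) := by
  obtain ⟨hb, hPw, hcard⟩ := mem_Fam.1 hQ
  have hbK : Q.image Fin.init ⊆ box (Fin.init n : Fin d → ℕ) := by
    intro A hA
    obtain ⟨T, hT, rfl⟩ := Finset.mem_image.1 hA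
    rw [mem_box]
    intro i
    exact mem_box.1 (hb hT) i.castSucc
  have hK := card_le (n := Fin.init n) hPw.image hbK
  obtain ⟨T0, hT0, hT0A⟩ := Finset.mem_image.1 hA
  have hne : (Q.filter fun T => (Fin.init T : Fin d → ℕ) = A).Nonempty :=
    ⟨T0, Finset.mem_filter.2 ⟨hT0, hT0A⟩⟩
  obtain ⟨Tm, hTm, hmin⟩ := Finset.exists_min_image _ (fun T => T (Fin.last d)) hne
  obtain ⟨TM, hTM, hmax⟩ := Finset.exists_max_image _ (fun T => T (Fin.last d)) hne
  rw [Finset.mem_filter] at hTm hTM
  set K := Q.image (Fin.init : (Fin (d + 1) → ℕ) → (Fin d → ℕ)) with hKdef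
  set m := Tm (Fin.last d) with hm
  set M := TM (Fin.last d) with hM
  have hmM : m ≤ M := hmin TM (Finset.mem_filter.2 hTM)
  have hMN : M ≤ n (Fin.last d) := mem_box.1 (hb hTM.1) (Fin.last d)
  have hcol : ∀ T ∈ Q, (Fin.init T : Fin d → ℕ) = A → m ≤ T (Fin.last d) ∧
      T (Fin.last d) ≤ M := fun T hT hTA =>
    ⟨hmin T (Finset.mem_filter.2 ⟨hT, hTA⟩), hmax T (Finset.mem_filter.2 ⟨hT, hTA⟩)⟩
  have c1 := card_stairs hPw (K.filter fun B => Rl A B) (Finset.filter_subset _ _) 0 m
    (Nat.zero_le _) (fun T hT hTK => ⟨Nat.zero_le _, by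
      rw [Finset.mem_filter] at hTK
      exact (hPw Tm hTm.1 T hT).anti (by rw [hTm.2]; exact hTK.2)⟩)
  have c2 := card_stairs hPw {A} (by
      intro B hB; rw [Finset.mem_singleton] at hB; rw [hB]; exact hA) m M hmM
    (fun T hT hTK => hcol T hT (Finset.mem_singleton.1 hTK))
  have c3 := card_stairs hPw (K.filter fun B => Rl B A) (Finset.filter_subset _ _) M
    (n (Fin.last d)) hMN (fun T hT hTK => ⟨by
      rw [Finset.mem_filter] at hTK
      exact (hPw T hT TM hTM.1).anti (by rw [hTM.2]; exact hTK.2), mem_box.1 (hb hT) _⟩)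
  have e1 : (Q.filter fun T => (Fin.init T : Fin d → ℕ) ∈ K.filter fun B => Rl A B) =
      Q.filter fun T => Rl A (Fin.init T) := by
    apply Finset.filter_congr
    intro T hT
    rw [Finset.mem_filter]
    exact ⟨fun h => h.2, fun h => ⟨Finset.mem_image_of_mem _ hT, h⟩⟩
  have e3 : (Q.filter fun T => (Fin.init T : Fin d → ℕ) ∈ K.filter fun B => Rl B A) =
      Q.filter fun T => Rl (Fin.init T) A := by
    apply Finset.filter_congr
    intro T hT
    rw [Finset.mem_filter]
    exact ⟨fun h => h.2, fun h => ⟨Finset.mem_image_of_mem _ hT, h⟩⟩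
  have e2 : (Q.filter fun T => (Fin.init T : Fin d → ℕ) ∈ ({A} : Finset (Fin d → ℕ))) =
      Q.filter fun T => (Fin.init T : Fin d → ℕ) = A := by
    apply Finset.filter_congr
    intro T _
    rw [Finset.mem_singleton]
  rw [e1] at c1
  rw [e2, Finset.card_singleton] at c2
  rw [e3] at c3
  -- partition of `Q` and of `K`
  have pQ : Q.card = (Q.filter fun T => Rl A (Fin.init T)).card +
      (Q.filter fun T => (Fin.init T : Fin d → ℕ) = A).card +
      (Q.filter fun T => Rl (Fin.init T) A).card := by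
    rw [← Finset.card_union_of_disjoint, ← Finset.card_union_of_disjoint]
    · congr 1
      ext T
      simp only [Finset.mem_union, Finset.mem_filter]
      constructor
      · intro hT
        by_cases h1 : (Fin.init T : Fin d → ℕ) = A
        · exact Or.inl (Or.inr ⟨hT, h1⟩)
        · rcases Rl.tri h1 with h2 | h2
          · exact Or.inr ⟨hT, h2⟩
          · exact Or.inl (Or.inl ⟨hT, h2⟩)
      · rintro ((h1 | h1) | h1) <;> exact h1.1
    · rw [Finset.disjoint_left]
      intro T h1 h2
      rw [Finset.mem_union, Finset.mem_filter, Finset.mem_filter] at h1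
      rw [Finset.mem_filter] at h2
      rcases h1 with h1 | h1
      · exact Rl.asymm h1.2 h2.2
      · rw [h1.2] at h2
        exact Rl.irrefl _ h2.2
    · rw [Finset.disjoint_left]
      intro T h1 h2
      rw [Finset.mem_filter] at h1 h2
      rw [h2.2] at h1
      exact Rl.irrefl _ h1.2
  have pK : K.card = (K.filter fun B => Rl A B).card + 1 + (K.filter fun B => Rl B A).card := by
    rw [← Finset.card_singleton A, ← Finset.card_union_of_disjoint,
      ← Finset.card_union_of_disjoint]
    · congr 1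
      ext T
      simp only [Finset.mem_union, Finset.mem_filter, Finset.mem_singleton]
      constructor
      · intro hT
        by_cases h1 : T = A
        · exact Or.inl (Or.inr h1)
        · rcases Rl.tri h1 with h2 | h2
          · exact Or.inr ⟨hT, h2⟩
          · exact Or.inl (Or.inl ⟨hT, h2⟩)
      · rintro ((h1 | h1) | h1)
        · exact h1.1
        · rw [h1]; exact hA
        · exact h1.1
    · rw [Finset.disjoint_left]
      intro T h1 h2
      rw [Finset.mem_union, Finset.mem_filter, Finset.mem_singleton] at h1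
      rw [Finset.mem_filter] at h2
      rcases h1 with h1 | h1
      · exact Rl.asymm h1.2 h2.2
      · rw [h1] at h2
        exact Rl.irrefl _ h2.2
    · rw [Finset.disjoint_left]
      intro T h1 h2
      rw [Finset.mem_filter] at h1
      rw [Finset.mem_singleton] at h2
      rw [h2] at h1
      exact Rl.irrefl _ h1.2
  have hs : ∑ i, n i = ∑ i, (Fin.init n : Fin d → ℕ) i + n (Fin.last d) := by
    rw [Fin.sum_univ_castSucc]
    rfl
  rw [hs] at hcard
  refine ⟨by omega, m, M, hmM, hcol, by omega, by omega⟩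

/-- Let `Q` be in `Fam n`, `K = Q.image init`. For `A ∈ K` apply `card_stairs` to
`{B ∈ K : Rl A B}` (values `≤` the minimum `m A` of the column of `A`), to `{A}` (values from `m A` to
the maximum `M A`) and to `{B ∈ K : Rl B A}` (values from `M A` to `n (last)`): the total number of
elements is at most `card K + n (last) ≤ 1 + ∑ n i` (`card_le` for `K`), so all these are
equalities. -/
theorem Fam_image {n : Fin (d + 1) → ℕ} {Q : Finset (Fin (d + 1) → ℕ)} (hQ : Q ∈ Fam n) :
    Q.image Fin.init ∈ Fam (Fin.init n) := by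
  obtain ⟨hb, hPw, hcard⟩ := mem_Fam.1 hQ
  have hne : Q.Nonempty := by
    rw [← Finset.card_pos, hcard]
    omega
  obtain ⟨T, hT⟩ := hne
  refine mem_Fam.2 ⟨?_, hPw.image, (FStr_eq hQ (Finset.mem_image_of_mem _ hT)).1⟩
  intro A hA
  obtain ⟨T, hT, rfl⟩ := Finset.mem_image.1 hA
  rw [mem_box]
  intro i
  exact mem_box.1 (hb hT) i.castSucc

private theorem FStr_card (Q : Finset (Fin (d + 1) → ℕ)) (K : Finset (Fin d → ℕ))
    (hK : K ⊆ Q.image Fin.init) :
    (Q.filter fun T => (Fin.init T : Fin d → ℕ) ∈ K).card = ∑ A ∈ K, cv Q A + K.card := by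
  have h1 := Finset.card_eq_sum_card_fiberwise
    (s := Q.filter fun T => (Fin.init T : Fin d → ℕ) ∈ K)
    (t := K) (f := fun T => (Fin.init T : Fin d → ℕ)) (fun T hT => by
      rw [Finset.mem_coe, Finset.mem_filter] at hT
      exact hT.2)
  rw [h1, Finset.card_eq_sum_ones, ← Finset.sum_add_distrib]
  apply Finset.sum_congr rfl
  intro A hA
  rw [cv_apply]
  have h2 : ((Q.filter fun T => (Fin.init T : Fin d → ℕ) ∈ K).filter
      fun T => (Fin.init T : Fin d → ℕ) = A) = Q.filter fun T => (Fin.init T : Fin d → ℕ) = A := by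
    ext T
    simp only [Finset.mem_filter]
    constructor
    · rintro ⟨⟨h3, _⟩, h4⟩
      exact ⟨h3, h4⟩
    · rintro ⟨h3, h4⟩
      exact ⟨⟨h3, by rw [h4]; exact hA⟩, h4⟩
  rw [h2]
  have h3 : 1 ≤ (Q.filter fun T => (Fin.init T : Fin d → ℕ) = A).card := by
    obtain ⟨T, hT, hTA⟩ := Finset.mem_image.1 (hK hA)
    exact Finset.card_pos.2 ⟨T, Finset.mem_filter.2 ⟨hT, hTA⟩⟩
  omega

/-- The number of the elements of `Q` is the number of the columns plus the sum of `cv Q`. -/
theorem cv_mem {n : Fin (d + 1) → ℕ} {Q : Finset (Fin (d + 1) → ℕ)} (hQ : Q ∈ Fam n) :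
    cv Q ∈ finsuppAntidiag (Q.image Fin.init) (n (Fin.last d)) := by
  have h1 := FStr_card Q (Q.image Fin.init) (Finset.Subset.refl _)
  have h2 : (Q.filter fun T => (Fin.init T : Fin d → ℕ) ∈ Q.image Fin.init) = Q := by
    rw [Finset.filter_true_of_mem]
    intro T hT
    exact Finset.mem_image_of_mem _ hT
  have h3 := (mem_Fam.1 (Fam_image hQ)).2.2
  have h4 := (mem_Fam.1 hQ).2.2
  have hs : ∑ i, n i = ∑ i, (Fin.init n : Fin d → ℕ) i + n (Fin.last d) := by
    rw [Fin.sum_univ_castSucc]
    rfl
  rw [h2] at h1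
  rw [Finset.mem_finsuppAntidiag]
  refine ⟨?_, ?_⟩
  · change ∑ A ∈ Q.image Fin.init, cv Q A = n (Fin.last d)
    omega
  intro A hA
  by_contra h5
  rw [Finsupp.mem_support_iff] at hA
  apply hA
  rw [cv_apply, Finset.filter_eq_empty_iff.2]
  · rfl
  · rintro T hT rfl
    exact h5 (Finset.mem_image_of_mem _ hT)

/-- By the equalities in the proof of `Fam_image`: the sum of `cv Q` over `{B : Rl A B}` is the
minimum of the column of `A`, and the column is an interval with `cv Q A + 1` elements. -/
theorem ext_cv {n : Fin (d + 1) → ℕ} {Q : Finset (Fin (d + 1) → ℕ)} (hQ : Q ∈ Fam n) :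
    ext (Q.image Fin.init) (cv Q) = Q := by
  have key : ∀ A ∈ Q.image (Fin.init : (Fin (d + 1) → ℕ) → (Fin d → ℕ)), ∀ t : ℕ,
      aft (Q.image Fin.init) (cv Q) A ≤ t ∧ t ≤ aft (Q.image Fin.init) (cv Q) A + cv Q A ↔
      (Fin.snoc (α := fun _ => ℕ) A t : Fin (d + 1) → ℕ) ∈ Q := by
    intro A hA t
    obtain ⟨_, m, M, hmM, hcol, h1, h2⟩ := FStr_eq hQ hA
    have h3 := FStr_card Q ((Q.image Fin.init).filter fun B => Rl A B) (Finset.filter_subset _ _)
    have e1 : (Q.filter fun T => (Fin.init T : Fin d → ℕ) ∈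
        (Q.image Fin.init).filter fun B => Rl A B) = Q.filter fun T => Rl A (Fin.init T) := by
      apply Finset.filter_congr
      intro T hT
      rw [Finset.mem_filter]
      exact ⟨fun h => h.2, fun h => ⟨Finset.mem_image_of_mem _ hT, h⟩⟩
    rw [e1, h1] at h3
    have h4 : aft (Q.image Fin.init) (cv Q) A = m := by
      unfold aft
      omega
    have h5 : cv Q A = M - m := by
      rw [cv_apply, h2]
      omega
    rw [h4, h5]
    -- the last coordinates of the column are all numbers from `m` to `M`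
    have h6 : ((Q.filter fun T => (Fin.init T : Fin d → ℕ) = A).image
        fun T => T (Fin.last d)) = Finset.Icc m M := by
      apply Finset.eq_of_subset_of_card_le
      · intro b hb
        obtain ⟨T, hT, rfl⟩ := Finset.mem_image.1 hb
        rw [Finset.mem_filter] at hT
        exact Finset.mem_Icc.2 (hcol T hT.1 hT.2)
      · rw [Finset.card_image_of_injOn, h2, Nat.card_Icc]
        · omega
        · intro T hT U hU hTU
          rw [Finset.mem_coe, Finset.mem_filter] at hT hU
          exact eq_of_init_last (hT.2.trans hU.2.symm) hTU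
    constructor
    · rintro ⟨h7, h8⟩
      have h9 : t ∈ Finset.Icc m M := Finset.mem_Icc.2 ⟨h7, by omega⟩
      rw [← h6] at h9
      obtain ⟨T, hT, rfl⟩ := Finset.mem_image.1 h9
      rw [Finset.mem_filter] at hT
      rw [← hT.2, Fin.snoc_init_self]
      exact hT.1
    · intro h7
      have h8 := hcol _ h7 (Fin.init_snoc _ _)
      rw [Fin.snoc_last] at h8
      omega
  ext T
  rw [mem_ext]
  constructor
  · rintro ⟨h1, h2⟩
    have h3 := (key _ h1 _).1 h2
    rwa [Fin.snoc_init_self] at h3
  · intro hT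
    refine ⟨Finset.mem_image_of_mem _ hT, (key _ (Finset.mem_image_of_mem _ hT) _).2 ?_⟩
    rw [Fin.snoc_init_self]
    exact hT

/-- Sums over the families. -/
theorem sum_Fam {R : Type} [AddCommMonoid R] (n : Fin (d + 1) → ℕ)
    (F : Finset (Fin (d + 1) → ℕ) → R) :
    ∑ Q ∈ Fam n, F Q = ∑ P ∈ Fam (Fin.init n),
      ∑ c ∈ finsuppAntidiag P (n (Fin.last d)), F (ext P c) := by
  rw [Finset.sum_sigma']
  refine Finset.sum_bij' (fun Q _ => ⟨Q.image Fin.init, cv Q⟩) (fun x _ => ext x.1 x.2)
    ?_ ?_ ?_ ?_ ?_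
  · intro Q hQ
    exact Finset.mem_sigma.2 ⟨Fam_image hQ, cv_mem hQ⟩
  · intro x hx
    rw [Finset.mem_sigma] at hx
    exact ext_mem hx.1 hx.2
  · intro Q hQ
    exact ext_cv hQ
  · intro x hx
    rw [Finset.mem_sigma] at hx
    obtain ⟨P, c⟩ := x
    have h1 := image_ext P c
    have h2 := cv_ext (P := P) (c := c) (Finset.mem_finsuppAntidiag.1 hx.2).2
    simp only
    rw [h2]
    congr 1
  · intro Q hQ
    rw [ext_cv hQ]

end Pool.Agent.MPb0eC
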