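import Pool.Agent.Lib.MP_b0e20b_ag_C.FStr

/-!
# MP_b0e20b_ag, block C: the weights of the maximal families
-/

set_option autoImplicit false

open Finset
open scoped Classical

namespace Pool.Agent.MPb0eC

open MPb0eA

variable {d : ℕ}

private theorem FWei_u (a c : ℕ) (X : ℝ) :
    ∑ s ∈ Finset.Icc a (a + c), (if s = a + c then X else (1 : ℝ)) = c + X := by
  rw [← Finset.sum_erase_add _ _ (Finset.mem_Icc.2 ⟨Nat.le_add_right a c, le_rfl⟩ :
    a + c ∈ Finset.Icc a (a + c)), if_pos rfl]
  congr 1
  rw [Finset.sum_congr rfl fun s hs => if_neg (Finset.ne_of_mem_erase hs), Finset.sum_const,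
    Finset.card_erase_of_mem (Finset.mem_Icc.2 ⟨Nat.le_add_right a c, le_rfl⟩), Nat.card_Icc,
    nsmul_eq_mul, mul_one]
  congr 1
  omega

private theorem FWei_v (a t : ℕ) (h : a ≤ t) (x : ℝ) :
    ∑ s ∈ Finset.Icc a t, (if s = a then x else (1 : ℝ)) = ((t - a : ℕ) : ℝ) + x := by
  rw [← Finset.sum_erase_add _ _ (Finset.mem_Icc.2 ⟨le_rfl, h⟩ : a ∈ Finset.Icc a t),
    if_pos rfl]
  congr 1
  rw [Finset.sum_congr rfl fun s hs => if_neg (Finset.ne_of_mem_erase hs), Finset.sum_const,
    Finset.card_erase_of_mem (Finset.mem_Icc.2 ⟨le_rfl, h⟩), Nat.card_Icc,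
    nsmul_eq_mul, mul_one]
  congr 1
  omega

/-- The partial sums in a column. -/
private theorem FWei_col (a c t : ℕ) (x y : ℝ) :
    (∑ s ∈ Finset.Icc a (a + c), if s ≤ t then
      ((if s = a + c then x + y else (1 : ℝ)) - if s = a then x else 1) else 0) =
      if t < a then 0 else if t < a + c then 1 - x else y := by
  rw [← Finset.sum_filter]
  by_cases h1 : t < a
  · rw [if_pos h1, Finset.filter_eq_empty_iff.2, Finset.sum_empty]
    intro s hs
    rw [Finset.mem_Icc] at hs
    omega
  · rw [if_neg h1]
    by_cases h2 : t < a + c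
    · rw [if_pos h2]
      have h3 : (Finset.Icc a (a + c)).filter (fun s => s ≤ t) = Finset.Icc a t := by
        ext s
        rw [Finset.mem_filter, Finset.mem_Icc, Finset.mem_Icc]
        omega
      rw [h3, Finset.sum_sub_distrib, FWei_v a t (by omega)]
      have h4 : ∑ s ∈ Finset.Icc a t, (if s = a + c then x + y else (1 : ℝ)) =
          ∑ _s ∈ Finset.Icc a t, (1 : ℝ) := by
        refine Finset.sum_congr rfl fun s hs => if_neg ?_
        rw [Finset.mem_Icc] at hs
        omega
      rw [h4, Finset.sum_const, Nat.card_Icc, nsmul_eq_mul, mul_one]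
      have h5 : t + 1 - a = (t - a) + 1 := by omega
      rw [h5]
      push_cast
      ring
    · rw [if_neg h2]
      have h3 : (Finset.Icc a (a + c)).filter (fun s => s ≤ t) = Finset.Icc a (a + c) := by
        rw [Finset.filter_eq_self]
        intro s hs
        rw [Finset.mem_Icc] at hs
        omega
      rw [h3, Finset.sum_sub_distrib, FWei_u, FWei_v a (a + c) (by omega)]
      have h5 : a + c - a = c := by omega
      rw [h5]
      ring

private theorem FWei_we (P : Finset (Fin d → ℕ)) (c : (Fin d → ℕ) → ℕ)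
    (lam : (Fin d → ℕ) → ℝ) (A : Fin d → ℕ) (t : ℕ) :
    we P c lam (Fin.snoc (α := fun _ => ℕ) A t) =
      (if t = aft P c A + c A then aft P lam A + lam A else 1) -
        (if t = aft P c A then aft P lam A else 1) := by
  rw [we, Fin.init_snoc, Fin.snoc_last]

private theorem FWei_tot {P : Finset (Fin d → ℕ)} (c : (Fin d → ℕ) → ℕ)
    (lam : (Fin d → ℕ) → ℝ) (A : Fin d → ℕ) :
    ∑ t ∈ Finset.Icc (aft P c A) (aft P c A + c A),
      we P c lam (Fin.snoc (α := fun _ => ℕ) A t) = lam A := by
  have h1 := FWei_col (aft P c A) (c A) (aft P c A + c A) (aft P lam A) (lam A)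
  rw [if_neg (by omega), if_neg (by omega)] at h1
  rw [← h1]
  refine Finset.sum_congr rfl fun t ht => ?_
  rw [FWei_we, if_pos (Finset.mem_Icc.1 ht).2]

private theorem FWei_le {P : Finset (Fin d → ℕ)} (c : (Fin d → ℕ) → ℕ) {A : Fin d → ℕ}
    (hA : A ∈ P) : aft P c A + c A ≤ ∑ B ∈ P, c B := by
  unfold aft
  have h1 : A ∉ P.filter fun X => Rl A X := by
    rw [Finset.mem_filter]
    exact fun h2 => Rl.irrefl A h2.2
  rw [add_comm, ← Finset.sum_insert h1]
  apply Finset.sum_le_sum_of_subset
  intro X hX
  rw [Finset.mem_insert, Finset.mem_filter] at hX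
  rcases hX with rfl | hX
  · exact hA
  · exact hX.1

/-- The total of the elements with last coordinate at most `t` is one. -/
private theorem FWei_part {P : Finset (Fin d → ℕ)} (c : (Fin d → ℕ) → ℕ)
    {lam : (Fin d → ℕ) → ℝ} (h1 : ∑ A ∈ P, lam A = 1) (t : ℕ) :
    (∑ T ∈ ext P c, if T (Fin.last d) ≤ t then we P c lam T else 0) = 1 := by
  rw [sum_ext]
  have h2 : ∀ A ∈ P, (∑ s ∈ Finset.Icc (aft P c A) (aft P c A + c A),
      if (Fin.snoc (α := fun _ => ℕ) A s : Fin (d + 1) → ℕ) (Fin.last d) ≤ t then
        we P c lam (Fin.snoc (α := fun _ => ℕ) A s) else 0) =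
      if t < aft P c A then 0 else if t < aft P c A + c A then 1 - aft P lam A else lam A := by
    intro A _
    rw [← FWei_col (aft P c A) (c A) t (aft P lam A) (lam A)]
    refine Finset.sum_congr rfl fun s _ => ?_
    rw [FWei_we, Fin.snoc_last]
  rw [Finset.sum_congr rfl h2]
  by_cases ht : t < ∑ A ∈ P, c A
  · obtain ⟨A, hA, ha1, ha2⟩ := exists_col ht
    rw [← Finset.sum_erase_add _ _ hA, if_neg (by omega), if_pos ha2]
    have h3 : ∑ B ∈ P.erase A, (if t < aft P c B then 0 else
        if t < aft P c B + c B then 1 - aft P lam B else lam B) = aft P lam A := by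
      unfold aft
      rw [Finset.sum_filter, ← Finset.sum_erase_add P _ hA, if_neg (Rl.irrefl A), add_zero]
      refine Finset.sum_congr rfl fun B hB => ?_
      rw [Finset.mem_erase] at hB
      rcases Rl.tri hB.1 with h4 | h4
      · have h5 := aft_add_le (c := c) hA h4
        have h6 : t < ∑ X ∈ P with Rl B X, c X := by
          have h7 : aft P c B = ∑ X ∈ P with Rl B X, c X := rfl
          omega
        rw [if_pos h6, if_neg h4.asymm]
      · have h5 := aft_add_le (c := c) hB.2 h4
        have h7 : aft P c B = ∑ X ∈ P with Rl B X, c X := rfl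
        rw [if_neg (by omega), if_neg (by omega), if_pos h4]
    rw [h3]
    ring
  · rw [not_lt] at ht
    rw [← h1]
    refine Finset.sum_congr rfl fun A hA => ?_
    have h3 := FWei_le c hA
    rw [if_neg (by omega), if_neg (by omega)]

/-- The weights on `ext P c`. Proof. The weights over `A` are `G_out - G_in`, so the sum over the
column `A` is `lam A` (telescope: `c A = 0` or first, last, zeros). The partial sum over the
elements of the column `A` with last coordinate `≤ t` is `0` for `t < aft P c A`, is
`1 - aft P lam A` for `aft P c A ≤ t < aft P c A + c A`, and `lam A` for `aft P c A + c A ≤ t`. For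
`t < ∑ c` let `A` be the last element of `P` (for `Rl`) with `t < aft P c A + c A`; then
`aft P c A ≤ t`, the elements `B` with `Rl A B` are exactly those with `aft P c B + c B ≤ t`, so the
total of the elements with last coordinate `≤ t` is `aft P lam A + (1 - aft P lam A) = 1`. For
`∑ c ≤ t` it is the sum of all `lam`, also `1`. -/
theorem Wt_we {P : Finset (Fin d → ℕ)} (hne : P.Nonempty) (c : (Fin d → ℕ) → ℕ)
    {lam : (Fin d → ℕ) → ℝ} (hw : Wt P lam) : Wt (ext P c) (we P c lam) := by
  refine ⟨?_, fun i b hb => ?_⟩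
  · rw [sum_ext, ← hw.one]
    exact Finset.sum_congr rfl fun A _ => FWei_tot c lam A
  · rw [Finset.sum_filter]
    induction i using Fin.lastCases with
    | last =>
      have h1 := FWei_part c hw.one b
      have h2 := FWei_part c hw.one (b - 1)
      have h3 : (∑ T ∈ ext P c, if T (Fin.last d) = b then we P c lam T else 0) =
          (∑ T ∈ ext P c, if T (Fin.last d) ≤ b then we P c lam T else 0) -
            ∑ T ∈ ext P c, if T (Fin.last d) ≤ b - 1 then we P c lam T else 0 := by
        rw [← Finset.sum_sub_distrib]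
        refine Finset.sum_congr rfl fun T _ => ?_
        rcases lt_trichotomy (T (Fin.last d)) b with h | h | h
        · rw [if_neg (by omega), if_pos (by omega), if_pos (by omega), sub_self]
        · rw [if_pos h, if_pos (by omega), if_neg (by omega), sub_zero]
        · rw [if_neg (by omega), if_neg (by omega), if_neg (by omega), sub_self]
      rw [h3, h1, h2, sub_self]
    | cast j =>
      have e := hw.zero j b hb
      rw [Finset.sum_filter] at e
      rw [sum_ext]
      refine (Finset.sum_congr rfl fun A _ => ?_).trans e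
      have h1 : ∀ t : ℕ, (Fin.snoc (α := fun _ => ℕ) A t : Fin (d + 1) → ℕ) j.castSucc = A j :=
        fun t => Fin.snoc_castSucc (α := fun _ => ℕ) t A j
      by_cases h : A j = b
      · rw [if_pos h, ← FWei_tot c lam A]
        exact Finset.sum_congr rfl fun t _ => if_pos ((h1 t).trans h)
      · rw [if_neg h]
        exact Finset.sum_eq_zero fun t _ => if_neg fun h2 => h ((h1 t).symm.trans h2)

theorem exists_Wt : ∀ {d : ℕ} {n : Fin d → ℕ} {P : Finset (Fin d → ℕ)}, P ∈ Fam n →
    ∃ lam, Wt P lam := by
  intro d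
  induction d with
  | zero =>
    intro n P hP
    rw [mem_Fam] at hP
    have h1 : P.card = 1 := by rw [hP.2.2]; simp
    refine ⟨fun _ => 1, ?_, fun i => i.elim0⟩
    rw [Finset.sum_const, h1, one_smul]
  | succ d ih =>
    intro n P hP
    obtain ⟨lam, hlam⟩ := ih (Fam_image hP)
    have hne : (P.image Fin.init : Finset (Fin d → ℕ)).Nonempty := by
      rw [Finset.image_nonempty, ← Finset.card_pos, (mem_Fam.1 hP).2.2]
      omega
    refine ⟨we (P.image Fin.init) (cv P) lam, ?_⟩
    have h1 := Wt_we hne (cv P) hlam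
    rwa [ext_cv hP] at h1

/-- The sum of the weights after `A` is not positive. -/
theorem aft_nonpos {P : Finset (Fin d → ℕ)} (hP : Pw P) {lam : (Fin d → ℕ) → ℝ}
    (hw : Wt P lam) {A : Fin d → ℕ} (hA : A ∈ P) : aft P lam A ≤ 0 := by
  by_cases h : ∃ U ∈ P, Rl A U
  · have h1 := Wt.seg hP hw A hA h
    have h2 := Finset.sum_filter_add_sum_filter_not P (fun T => Rl A T) lam
    rw [hw.one] at h2
    unfold aft
    linarith
  · have h1 : (P.filter fun B => Rl A B) = ∅ := by
      rw [Finset.filter_eq_empty_iff]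
      intro B hB hAB
      exact h ⟨B, hB, hAB⟩
    rw [aft, h1, Finset.sum_empty]

end Pool.Agent.MPb0eC
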