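import Pool.Agent.Lib.MP_b0e20b_ag_C.FWei

/-!
# MP_b0e20b_ag, block C: the number of zero weights
-/

set_option autoImplicit false

open Finset
open scoped Classical

namespace Pool.Agent.MPb0eC

open MPb0eA

variable {d : ℕ}

/-- The generating function of the column over `A`. -/
noncomputable def fac {R : Type} [CommRing R] (Z U : R) (P : Finset (Fin d → ℕ))
    (A : Fin d → ℕ) : PowerSeries R :=
  if ∀ B ∈ P, ¬ Rl B A then geo Z
  else if wt P A = 0 then PowerSeries.C Z + inc Z U else PowerSeries.C U + inc Z U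

/-- If `A` is not the first element of `P` then the sum of the weights from `A` on is not positive
(it is `aft` at the element before `A`), otherwise it is one. -/
theorem aft_add_nonpos {P : Finset (Fin d → ℕ)} (hP : Pw P) {lam : (Fin d → ℕ) → ℝ}
    (hw : Wt P lam) {A : Fin d → ℕ} (hA : A ∈ P) (h : ∃ B ∈ P, Rl B A) :
    aft P lam A + lam A ≤ 0 := by
  obtain ⟨B, hB, hBA, h1⟩ := exists_prev h
  rw [← aft_next hA hBA h1]
  exact aft_nonpos hP hw hB

theorem aft_add_eq {P : Finset (Fin d → ℕ)} {lam : (Fin d → ℕ) → ℝ}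
    (hw : Wt P lam) {A : Fin d → ℕ} (hA : A ∈ P) (h : ∀ B ∈ P, ¬ Rl B A) :
    aft P lam A + lam A = 1 := by
  rw [aft_first hA h, hw.one]

/-- The first element is unique. -/
private theorem first_iff {P : Finset (Fin d → ℕ)} {A0 A : Fin d → ℕ} (hA0 : A0 ∈ P)
    (h0 : ∀ B ∈ P, ¬ Rl B A0) (hA : A ∈ P) : (∀ B ∈ P, ¬ Rl B A) ↔ A = A0 := by
  constructor
  · intro h
    by_contra h1
    rcases Rl.tri h1 with h2 | h2
    · exact h0 A hA h2
    · exact h A0 hA0 h2
  · rintro rfl
    exact h0

/-- A sum with a separate value at the first element. -/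
private theorem sum_first {P : Finset (Fin d → ℕ)} {A0 : Fin d → ℕ} (hA0 : A0 ∈ P)
    (h0 : ∀ B ∈ P, ¬ Rl B A0) (x y : (Fin d → ℕ) → ℕ) :
    ∑ A ∈ P, (if ∀ B ∈ P, ¬ Rl B A then x A else y A) = x A0 + ∑ A ∈ P.erase A0, y A := by
  rw [← Finset.add_sum_erase P _ hA0, if_pos h0]
  congr 1
  apply Finset.sum_congr rfl
  intro A hA
  rw [Finset.mem_erase] at hA
  rw [if_neg fun h => hA.1 ((first_iff hA0 h0 hA.2).1 h)]

/-- A product with a separate value at the first element. -/
private theorem prod_first {M : Type} [CommMonoid M] {P : Finset (Fin d → ℕ)} {A0 : Fin d → ℕ}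
    (hA0 : A0 ∈ P) (h0 : ∀ B ∈ P, ¬ Rl B A0) (x y : (Fin d → ℕ) → M) :
    ∏ A ∈ P, (if ∀ B ∈ P, ¬ Rl B A then x A else y A) = x A0 * ∏ A ∈ P.erase A0, y A := by
  rw [← Finset.mul_prod_erase P _ hA0, if_pos h0]
  congr 1
  apply Finset.prod_congr rfl
  intro A hA
  rw [Finset.mem_erase] at hA
  rw [if_neg fun h => hA.1 ((first_iff hA0 h0 hA.2).1 h)]

/-- The members of a maximal family are nonempty. -/
private theorem Fam_nonempty {n : Fin d → ℕ} {P : Finset (Fin d → ℕ)} (hP : P ∈ Fam n) :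
    P.Nonempty := by
  rw [← Finset.card_pos, (mem_Fam.1 hP).2.2]
  omega

/-- The weights of an extension. -/
private theorem wt_ext {n : Fin (d + 1) → ℕ} {P : Finset (Fin d → ℕ)} {c : (Fin d → ℕ) →₀ ℕ}
    (hP : P ∈ Fam (Fin.init n)) (hc : c ∈ finsuppAntidiag P (n (Fin.last d)))
    {T : Fin (d + 1) → ℕ} (hT : T ∈ ext P c) : wt (ext P c) T = we P c (wt P) T := by
  have h1 : Wt (ext P c) (we P c (wt P)) := Wt_we (Fam_nonempty hP) c (wt_spec (exists_Wt hP))
  have h2 := ext_mem hP hc
  exact Wt_unique (mem_Fam.1 h2).2.1 (wt_spec ⟨_, h1⟩) h1 T hT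

/-- Sum over a column by the distance to the lowest element. -/
private theorem sum_col {G : Type} [AddCommMonoid G] (a k : ℕ) (f : ℕ → G) :
    ∑ t ∈ Finset.Icc a (a + k), f t = ∑ j ∈ Finset.range (k + 1), f (a + j) := by
  have h1 : Finset.Icc a (a + k) = Finset.Ico a (a + k + 1) := by
    ext t
    rw [Finset.mem_Icc, Finset.mem_Ico]
    omega
  rw [h1, Finset.sum_Ico_eq_sum_range]
  congr 2
  omega

/-- The number of zeros in a column. -/
private theorem col_count (a k : ℕ) (x y : ℝ) (hx : x ≤ 0) :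
    (∑ t ∈ Finset.Icc a (a + k), if ((if t = a + k then y else 1) -
      (if t = a then x else 1) : ℝ) = 0 then 1 else 0 : ℕ) =
      if k = 0 then (if y - x = 0 then 1 else 0) else (k - 1) + (if y = 1 then 1 else 0) := by
  rw [sum_col]
  rcases Nat.eq_zero_or_pos k with rfl | hk
  · rw [zero_add, Finset.sum_range_one, if_pos rfl, if_pos (Nat.add_zero a), if_pos rfl]
  · obtain ⟨m, rfl⟩ : ∃ m, k = m + 1 := ⟨k - 1, by omega⟩
    rw [if_neg (Nat.succ_ne_zero m), Finset.sum_range_succ, Finset.sum_range_succ']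
    have h1 : ∀ j ∈ Finset.range m, (if ((if a + (j + 1) = a + (m + 1) then y else 1) -
        (if a + (j + 1) = a then x else 1) : ℝ) = 0 then 1 else 0 : ℕ) = 1 := by
      intro j hj
      rw [Finset.mem_range] at hj
      have e1 : ¬ a + (j + 1) = a + (m + 1) := by omega
      have e2 : ¬ a + (j + 1) = a := by omega
      rw [if_neg e1, if_neg e2, sub_self, if_pos rfl]
    rw [Finset.sum_congr rfl h1, Finset.sum_const, Finset.card_range, smul_eq_mul, mul_one]
    have e3 : ¬ a + 0 = a + (m + 1) := by omega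
    have e4 : ¬ a + (m + 1) = a := by omega
    have e5 : ¬ (1 : ℝ) - x = 0 := by
      intro h
      linarith
    rw [if_neg e3, if_pos (Nat.add_zero a), if_neg e5, if_pos rfl, if_neg e4,
      Nat.add_sub_cancel, add_zero]
    congr 1
    by_cases h2 : y = 1
    · rw [if_pos h2, if_pos (by rw [h2, sub_self])]
    · rw [if_neg h2, if_neg (by intro h3; exact h2 (sub_eq_zero.1 h3))]

/-- By `wt_spec`, `exists_Wt`, `ext_mem`, `Wt_we` and `Wt_unique` the weights of `ext P c` are
`we P c (wt P)`; use `sum_ext` for the number (as sum of ones). Over `A`, with `c = c A`: for `c = 0`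
the weight is `wt P A`; for `c ≥ 1` the lowest is `1 - aft ≥ 1` (`aft_nonpos`), the middle ones are
zero, the highest is `aft P (wt P) A + wt P A - 1`, zero exactly for the first element `A` of `P`
(`aft_add_eq`, `aft_add_nonpos`). For `c = 0` and the first element the weight is `1 - aft ≥ 1`.
Result: the number of zero weights over the element `A`: with `c = c A`, for the first element (in the
order `Rl`) it is `c`, otherwise `c - 1` for `c ≥ 1` and `1` or `0` for `c = 0`. -/
theorem zc_ext {n : Fin (d + 1) → ℕ} {P : Finset (Fin d → ℕ)} {c : (Fin d → ℕ) →₀ ℕ}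
    (hP : P ∈ Fam (Fin.init n)) (hc : c ∈ finsuppAntidiag P (n (Fin.last d))) :
    zc (ext P c) = ∑ A ∈ P, (if ∀ B ∈ P, ¬ Rl B A then c A else
      if c A = 0 then (if wt P A = 0 then 1 else 0) else c A - 1) := by
  have hw : Wt P (wt P) := wt_spec (exists_Wt hP)
  have hPw : Pw P := (mem_Fam.1 hP).2.1
  rw [zc, Finset.card_filter]
  have h1 : ∀ T ∈ ext P c, (if wt (ext P c) T = 0 then 1 else 0 : ℕ) =
      if we P c (wt P) T = 0 then 1 else 0 := by
    intro T hT
    rw [wt_ext hP hc hT]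
  rw [Finset.sum_congr rfl h1, sum_ext]
  apply Finset.sum_congr rfl
  intro A hA
  have h2 : ∀ t : ℕ, we P c (wt P) (Fin.snoc (α := fun _ => ℕ) A t) =
      (if t = aft P c A + c A then aft P (wt P) A + wt P A else 1) -
      (if t = aft P c A then aft P (wt P) A else 1) := by
    intro t
    rw [we, Fin.init_snoc, Fin.snoc_last]
  simp only [h2]
  have h3 := aft_nonpos hPw hw hA
  rw [col_count _ _ _ _ h3, add_sub_cancel_left]
  by_cases h4 : ∀ B ∈ P, ¬ Rl B A
  · have h5 := aft_add_eq hw hA h4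
    rw [if_pos h4]
    by_cases h6 : c A = 0
    · have h7 : ¬ wt P A = 0 := by
        intro h8
        rw [h8] at h5
        linarith
      rw [if_pos h6, if_neg h7, h6]
    · rw [if_neg h6, if_pos h5]
      omega
  · have h5 : aft P (wt P) A + wt P A ≤ 0 := by
      apply aft_add_nonpos hPw hw hA
      by_contra h6
      exact h4 fun B hB hBA => h6 ⟨B, hB, hBA⟩
    have h6 : ¬ aft P (wt P) A + wt P A = 1 := by
      intro h7
      linarith
    rw [if_neg h4, if_neg h6, add_zero]

/-- The exponent of `U` in the factor over `A`. -/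
private noncomputable def uex (P : Finset (Fin d → ℕ)) (c : (Fin d → ℕ) → ℕ)
    (A : Fin d → ℕ) : ℕ :=
  if ∀ B ∈ P, ¬ Rl B A then 0 else if c A = 0 then (if wt P A = 0 then 0 else 1) else 2

/-- The exponent of `Z` in the factor over `A`. -/
private noncomputable def zex (P : Finset (Fin d → ℕ)) (c : (Fin d → ℕ) → ℕ)
    (A : Fin d → ℕ) : ℕ :=
  if ∀ B ∈ P, ¬ Rl B A then c A else
    if c A = 0 then (if wt P A = 0 then 1 else 0) else c A - 1

private theorem coeff_geo {R : Type} [CommRing R] (Z : R) (k : ℕ) :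
    PowerSeries.coeff k (geo Z) = Z ^ k := by
  rw [geo, PowerSeries.coeff_mk]

private theorem coeff_inc_zero {R : Type} [CommRing R] (Z U : R) :
    PowerSeries.coeff 0 (inc Z U) = 0 := by
  rw [inc, mul_assoc, PowerSeries.coeff_zero_X_mul]

private theorem coeff_inc_succ {R : Type} [CommRing R] (Z U : R) (k : ℕ) :
    PowerSeries.coeff (k + 1) (inc Z U) = U ^ 2 * Z ^ k := by
  rw [inc, mul_assoc, PowerSeries.coeff_succ_X_mul, PowerSeries.coeff_C_mul, coeff_geo]

private theorem coeff_fac {R : Type} [CommRing R] (Z U : R) (P : Finset (Fin d → ℕ))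
    (c : (Fin d → ℕ) → ℕ) (A : Fin d → ℕ) :
    PowerSeries.coeff (c A) (fac Z U P A) = Z ^ zex P c A * U ^ uex P c A := by
  unfold fac zex uex
  by_cases h1 : ∀ B ∈ P, ¬ Rl B A
  · rw [if_pos h1, if_pos h1, if_pos h1, coeff_geo, pow_zero, mul_one]
  · rw [if_neg h1, if_neg h1, if_neg h1]
    by_cases h2 : c A = 0
    · rw [if_pos h2, if_pos h2, h2]
      by_cases h3 : wt P A = 0
      · rw [if_pos h3, if_pos h3, if_pos h3, map_add, coeff_inc_zero,
          PowerSeries.coeff_zero_C, add_zero, pow_one, pow_zero, mul_one]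
      · rw [if_neg h3, if_neg h3, if_neg h3, map_add, coeff_inc_zero,
          PowerSeries.coeff_zero_C, add_zero, pow_one, pow_zero, one_mul]
    · obtain ⟨k, hk⟩ : ∃ k, c A = k + 1 := ⟨c A - 1, by omega⟩
      rw [if_neg h2, if_neg h2, hk, Nat.add_sub_cancel, mul_comm]
      by_cases h3 : wt P A = 0
      · rw [if_pos h3, map_add, coeff_inc_succ, PowerSeries.coeff_C,
          if_neg (Nat.succ_ne_zero k), zero_add]
      · rw [if_neg h3, map_add, coeff_inc_succ, PowerSeries.coeff_C,
          if_neg (Nat.succ_ne_zero k), zero_add]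

private theorem sum_ex {n : Fin (d + 1) → ℕ} {P : Finset (Fin d → ℕ)}
    {c : (Fin d → ℕ) →₀ ℕ} (hP : P ∈ Fam (Fin.init n))
    (hc : c ∈ finsuppAntidiag P (n (Fin.last d))) :
    ∑ A ∈ P, zex P c A + ∑ A ∈ P, uex P c A = ∑ i, n i := by
  obtain ⟨A0, hA0, h0⟩ := exists_first (Fam_nonempty hP)
  rw [← Finset.sum_add_distrib]
  have h1 : ∀ A ∈ P, zex P c A + uex P c A =
      if ∀ B ∈ P, ¬ Rl B A then c A else c A + 1 := by
    intro A _
    unfold zex uex
    by_cases h1 : ∀ B ∈ P, ¬ Rl B A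
    · rw [if_pos h1, if_pos h1, if_pos h1, add_zero]
    · rw [if_neg h1, if_neg h1, if_neg h1]
      by_cases h2 : c A = 0
      · rw [if_pos h2, if_pos h2, h2]
        by_cases h3 : wt P A = 0
        · rw [if_pos h3, if_pos h3]
        · rw [if_neg h3, if_neg h3]
      · rw [if_neg h2, if_neg h2]
        omega
  have h2 := (Finset.mem_finsuppAntidiag.1 hc).1
  have h3 := (mem_Fam.1 hP).2.2
  rw [Finset.sum_congr rfl h1, sum_first hA0 h0, Finset.sum_add_distrib, ← add_assoc,
    Finset.add_sum_erase P _ hA0, h2, Finset.sum_const, smul_eq_mul, mul_one,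
    Finset.card_erase_of_mem hA0, h3, Fin.sum_univ_castSucc]
  unfold Fin.init
  omega

/-- Exponents: over the first element `A` there are `c A` zero weights and one other, over another
element `A` with `c A ≥ 1` there are `c A - 1` and two others. -/
theorem term_ext {R : Type} [CommRing R] (Z U : R) {n : Fin (d + 1) → ℕ}
    {P : Finset (Fin d → ℕ)} {c : (Fin d → ℕ) →₀ ℕ}
    (hP : P ∈ Fam (Fin.init n)) (hc : c ∈ finsuppAntidiag P (n (Fin.last d))) :
    Z ^ zc (ext P c) * U ^ (∑ i, n i - zc (ext P c)) =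
      ∏ A ∈ P, PowerSeries.coeff (c A) (fac Z U P A) := by
  have h1 : zc (ext P c) = ∑ A ∈ P, zex P c A := zc_ext hP hc
  have h2 : ∑ i, n i - ∑ A ∈ P, zex P c A = ∑ A ∈ P, uex P c A := by
    rw [← sum_ex hP hc, Nat.add_sub_cancel_left]
  rw [h1, h2, ← Finset.prod_pow_eq_pow_sum, ← Finset.prod_pow_eq_pow_sum,
    ← Finset.prod_mul_distrib]
  exact Finset.prod_congr rfl fun A _ => (coeff_fac Z U P c A).symm

/-- The first element is unique and has a nonzero weight (`aft_add_eq`, `aft_nonpos`); among the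
other `∑ i, n i` elements there are `zc P` with weight zero. -/
theorem prod_fac {R : Type} [CommRing R] (Z U : R) {n : Fin d → ℕ} {P : Finset (Fin d → ℕ)}
    (hP : P ∈ Fam n) : ∏ A ∈ P, fac Z U P A =
      (PowerSeries.C Z + inc Z U) ^ zc P * (PowerSeries.C U + inc Z U) ^ (∑ i, n i - zc P) *
        geo Z := by
  have hw : Wt P (wt P) := wt_spec (exists_Wt hP)
  obtain ⟨A0, hA0, h0⟩ := exists_first (Fam_nonempty hP)
  have h1 : ¬ wt P A0 = 0 := by
    intro h2
    have h3 := aft_add_eq hw hA0 h0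
    have h4 := aft_nonpos (mem_Fam.1 hP).2.1 hw hA0
    rw [h2] at h3
    linarith
  have h2 : ((P.erase A0).filter fun A => wt P A = 0).card = zc P := by
    rw [zc]
    congr 1
    ext A
    rw [Finset.mem_filter, Finset.mem_filter, Finset.mem_erase]
    constructor
    · rintro ⟨⟨_, h3⟩, h4⟩
      exact ⟨h3, h4⟩
    · rintro ⟨h3, h4⟩
      refine ⟨⟨?_, h3⟩, h4⟩
      rintro rfl
      exact h1 h4
  have h3 : ((P.erase A0).filter fun A => ¬ wt P A = 0).card = ∑ i, n i - zc P := by
    have h4 := Finset.card_filter_add_card_filter_not (s := P.erase A0) (fun A => wt P A = 0)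
    rw [h2, Finset.card_erase_of_mem hA0, (mem_Fam.1 hP).2.2] at h4
    omega
  unfold fac
  rw [prod_first hA0 h0, Finset.prod_ite, Finset.prod_const, Finset.prod_const, h2, h3, mul_comm]

end Pool.Agent.MPb0eC
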