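import Pool.Agent.Lib.MP_b0e20b_ag_C.Ser

/-!
# MP_b0e20b_ag, block C: the count of the flags gives two thirds of the solutions
-/

set_option autoImplicit false

open Finset

namespace Pool.Agent.MPb0eC

variable {d : ℕ}

/-- The series of the numbers `D`. -/
noncomputable def Ds (D : (Fin d → ℕ) → ℕ) : MvPowerSeries (Fin d) ℤ := ser fun n => (D n : ℤ)

/-- The series with all coefficients one. -/
noncomputable def As (d : ℕ) : MvPowerSeries (Fin d) ℤ := ser fun _ => 1

/-- The series of the multi-indices with even entries. -/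
noncomputable def Bs (d : ℕ) : MvPowerSeries (Fin d) ℤ :=
  ser fun n => if ∀ i, Even (n i) then 1 else 0

/-- The series of the multi-indices with even entry `i`. -/
noncomputable def Ai (i : Fin d) : MvPowerSeries (Fin d) ℤ :=
  ser fun n => if Even (n i) then 1 else 0

theorem Ds_Q {D : (Fin d → ℕ) → ℕ} (h : Mac D) :
    Ds D * ∑ J : Finset (Fin d), (1 - (J.card : ℤ)) • xs J = 1 := by
  classical
  ext m
  rw [mul_comm, Finset.sum_mul, map_sum, MvPowerSeries.coeff_one]
  have h1 : ∀ J : Finset (Fin d), MvPowerSeries.coeff m (((1 - (J.card : ℤ)) • xs J) * Ds D) =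
      (1 - (J.card : ℤ)) * (if ∀ i ∈ J, 1 ≤ m i then (D ((m : Fin d → ℕ) - ind J) : ℤ)
        else 0) := by
    intro J
    rw [smul_mul_assoc, map_zsmul, coeff_xs_mul, smul_eq_mul]
    rfl
  rw [Finset.sum_congr rfl fun J _ => h1 J]
  have h2 : ∀ J : Finset (Fin d), (1 - (J.card : ℤ)) * (if ∀ i ∈ J, 1 ≤ m i then
      (D ((m : Fin d → ℕ) - ind J) : ℤ) else 0) = (if J = ∅ then (D m : ℤ) else 0) -
      (if (∀ i ∈ J, 1 ≤ m i) ∧ 2 ≤ J.card then
        (((J.card - 1) * D ((m : Fin d → ℕ) - ind J) : ℕ) : ℤ) else 0) := by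
    intro J
    by_cases hJ : J = ∅
    · subst hJ
      have : ind (∅ : Finset (Fin d)) = 0 := by
        funext i; simp [ind]
      simp [this]
    · rw [if_neg hJ]
      have hc : 1 ≤ J.card := Finset.one_le_card.2 (Finset.nonempty_iff_ne_empty.2 hJ)
      by_cases h3 : ∀ i ∈ J, 1 ≤ m i
      · rw [if_pos h3]
        by_cases h4 : 2 ≤ J.card
        · rw [if_pos ⟨h3, h4⟩, Nat.cast_mul, Nat.cast_sub hc]
          push_cast
          ring
        · have : J.card = 1 := by omega
          simp [this]
      · rw [if_neg h3, if_neg (fun h5 => h3 h5.1)]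
        ring
  rw [Finset.sum_congr rfl fun J _ => h2 J, Finset.sum_sub_distrib, ← Finset.sum_filter,
    ← Finset.sum_filter, Finset.filter_eq' , if_pos (Finset.mem_univ _), Finset.sum_singleton,
    ← Nat.cast_sum]
  by_cases hm : m = 0
  · subst hm
    rw [if_pos rfl]
    have h5 : (univ.filter fun J : Finset (Fin d) =>
        (∀ i ∈ J, 1 ≤ (0 : Fin d →₀ ℕ) i) ∧ 2 ≤ J.card) = ∅ := by
      rw [Finset.filter_eq_empty_iff]
      rintro J - ⟨h6, h7⟩
      have h8 : J.Nonempty := by rw [← Finset.card_pos]; omega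
      obtain ⟨i, hi⟩ := h8
      have := h6 i hi
      simp at this
    rw [h5, Finset.sum_empty, Nat.cast_zero, sub_zero]
    have : D ⇑(0 : Fin d →₀ ℕ) = 1 := h.zero
    exact_mod_cast this
  · rw [if_neg hm, h.step m (fun h9 => hm (by ext i; exact congrFun h9 i))]
    simp

theorem coeff_mul_As (f : MvPowerSeries (Fin d) ℤ) (n : Fin d → ℕ) :
    MvPowerSeries.coeff (fs n) (f * As d) = ∑ a ∈ box n, MvPowerSeries.coeff (fs a) f := by
  classical
  rw [MvPowerSeries.coeff_mul]
  have h1 : ∀ p ∈ Finset.HasAntidiagonal.antidiagonal (fs n), MvPowerSeries.coeff p.1 f *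
      MvPowerSeries.coeff p.2 (As d) = MvPowerSeries.coeff p.1 f := by
    intro p _
    have : MvPowerSeries.coeff p.2 (As d) = 1 := rfl
    rw [this, mul_one]
  rw [Finset.sum_congr rfl h1]
  refine Finset.sum_bij' (fun p _ => (p.1 : Fin d → ℕ)) (fun a _ => (fs a, fs (n - a)))
    ?_ ?_ ?_ ?_ ?_
  · intro p hp
    rw [Finset.HasAntidiagonal.mem_antidiagonal] at hp
    rw [box, Fintype.mem_piFinset]
    intro i
    have : p.1 i + p.2 i = n i := by
      have := DFunLike.congr_fun hp i
      simpa [fs_apply] using this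
    rw [Finset.mem_range]
    omega
  · intro a ha
    rw [box, Fintype.mem_piFinset] at ha
    rw [Finset.HasAntidiagonal.mem_antidiagonal]
    ext i
    have := Finset.mem_range.1 (ha i)
    simp only [Finsupp.add_apply, fs_apply, Pi.sub_apply]
    omega
  · intro p hp
    rw [Finset.HasAntidiagonal.mem_antidiagonal] at hp
    refine Prod.ext (fs_coe _) ?_
    ext i
    have : p.1 i + p.2 i = n i := by
      have := DFunLike.congr_fun hp i
      simpa [fs_apply] using this
    simp only [fs_apply, Pi.sub_apply]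
    omega
  · intro a _; rfl
  · intro p _
    rw [fs_coe]

/-- The series of the numbers `Ne`. -/
noncomputable def Es (D : (Fin d → ℕ) → ℕ) : MvPowerSeries (Fin d) ℤ := Ds D * As d

theorem coeff_Es (D : (Fin d → ℕ) → ℕ) (n : Fin d → ℕ) :
    MvPowerSeries.coeff (fs n) (Es D) = (Ne D n : ℤ) := by
  rw [Es, coeff_mul_As, Ne, Nat.cast_sum]
  rfl

/-- The product of all `1 + x i`. -/
noncomputable def Ps (d : ℕ) : MvPowerSeries (Fin d) ℤ := ∏ i : Fin d, (1 + MvPowerSeries.X i)

theorem Ps_eq (d : ℕ) : Ps d = ∑ J : Finset (Fin d), xs J := by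
  classical
  rw [Ps, Finset.prod_one_add, Finset.powerset_univ]
  rfl

theorem Ps_Bs (d : ℕ) : Ps d * Bs d = As d := by
  classical
  ext m
  rw [Ps_eq, Finset.sum_mul, map_sum]
  have h1 : ∀ J : Finset (Fin d), MvPowerSeries.coeff m (xs J * Bs d) =
      if J = univ.filter (fun i => ¬ Even (m i)) then 1 else 0 := by
    intro J
    rw [coeff_xs_mul]
    have h2 : MvPowerSeries.coeff (fs ((m : Fin d → ℕ) - ind J)) (Bs d) =
      if ∀ i, Even (m i - ind J i) then 1 else 0 := rfl
    rw [h2]
    by_cases h3 : J = univ.filter (fun i => ¬ Even (m i))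
    · rw [if_pos h3, if_pos, if_pos]
      · intro i
        by_cases hi : i ∈ J
        · have : ¬ Even (m i) := by
            rw [h3, Finset.mem_filter] at hi; exact hi.2
          rw [Nat.not_even_iff_odd] at this
          simp only [ind, if_pos hi]
          exact Nat.Odd.sub_odd this odd_one
        · have : Even (m i) := by
            by_contra h4
            exact hi (by rw [h3, Finset.mem_filter]; exact ⟨Finset.mem_univ _, h4⟩)
          simpa [ind, hi] using this
      · intro i hi
        rw [h3, Finset.mem_filter, Nat.not_even_iff_odd] at hi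
        exact hi.2.pos
    · rw [if_neg h3]
      split_ifs with h4 h5
      · exfalso
        apply h3
        ext i
        rw [Finset.mem_filter]
        have h6 := h5 i
        by_cases hi : i ∈ J
        · have h7 := h4 i hi
          simp only [ind, if_pos hi] at h6
          refine ⟨fun _ => ⟨Finset.mem_univ _, ?_⟩, fun _ => hi⟩
          rw [Nat.not_even_iff_odd]
          have : m i = (m i - 1) + 1 := by omega
          rw [this]
          exact h6.add_one
        · simp only [ind, if_neg hi, Nat.sub_zero] at h6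
          exact ⟨fun h8 => absurd h8 hi, fun h8 => absurd h6 h8.2⟩
      · rfl
      · rfl
  rw [Finset.sum_congr rfl fun J _ => h1 J, Finset.sum_ite_eq', if_pos (Finset.mem_univ _)]
  rfl

theorem Ai_eq (i : Fin d) : (1 + MvPowerSeries.X i) * Ai i = As d := by
  classical
  ext m
  have h1 : (MvPowerSeries.X i : MvPowerSeries (Fin d) ℤ) = xs {i} := by
    simp [xs]
  rw [add_mul, one_mul, map_add, h1, coeff_xs_mul]
  have h2 : MvPowerSeries.coeff m (Ai i) = if Even (m i) then 1 else 0 := rfl
  have h3 : MvPowerSeries.coeff (fs ((m : Fin d → ℕ) - ind {i})) (Ai i) =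
      if Even (m i - 1) then 1 else 0 := by
    change (if Even (m i - ind {i} i) then (1 : ℤ) else 0) = _
    simp [ind]
  have h4 : MvPowerSeries.coeff m (As d) = 1 := rfl
  rw [h2, h3, h4]
  by_cases h5 : Even (m i)
  · rw [if_pos h5]
    by_cases h6 : 1 ≤ m i
    · have h7 : ¬ Even (m i - 1) := by
        rw [Nat.not_even_iff_odd]
        exact Nat.Even.sub_odd h6 h5 odd_one
      simp [h7]
    · have : ¬ ∀ j ∈ ({i} : Finset (Fin d)), 1 ≤ m j := fun h8 =>
        h6 (h8 i (Finset.mem_singleton_self i))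
      rw [if_neg this, add_zero]
  · rw [if_neg h5]
    rw [Nat.not_even_iff_odd] at h5
    have h7 : Even (m i - 1) := Nat.Odd.sub_odd h5 odd_one
    have h8 : ∀ j ∈ ({i} : Finset (Fin d)), 1 ≤ m j := by
      intro j hj
      rw [Finset.mem_singleton.1 hj]
      exact h5.pos
    rw [if_pos h8, if_pos h7, zero_add]

theorem As_M (d : ℕ) :
    As d * ∑ J : Finset (Fin d), ((-1 : ℤ) ^ J.card) • xs J = 1 := by
  classical
  ext m
  rw [mul_comm, Finset.sum_mul, map_sum, MvPowerSeries.coeff_one]
  have h1 : ∀ J : Finset (Fin d), MvPowerSeries.coeff m ((((-1 : ℤ) ^ J.card) • xs J) * As d) =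
      if J ∈ (univ.filter fun i => 1 ≤ m i).powerset then (-1 : ℤ) ^ J.card else 0 := by
    intro J
    rw [smul_mul_assoc, map_zsmul, coeff_xs_mul, smul_eq_mul]
    have h2 : MvPowerSeries.coeff (fs ((m : Fin d → ℕ) - ind J)) (As d) = 1 := rfl
    rw [h2]
    have h3 : (∀ i ∈ J, 1 ≤ m i) ↔ J ⊆ univ.filter fun i => 1 ≤ m i := by
      constructor
      · intro h i hi
        exact Finset.mem_filter.2 ⟨Finset.mem_univ _, h i hi⟩
      · intro h i hi
        exact (Finset.mem_filter.1 (h hi)).2
    by_cases h4 : ∀ i ∈ J, 1 ≤ m i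
    · rw [if_pos h4, if_pos (Finset.mem_powerset.2 (h3.1 h4)), mul_one]
    · rw [if_neg h4, if_neg (fun h5 => h4 (h3.2 (Finset.mem_powerset.1 h5))), mul_zero]
  rw [Finset.sum_congr rfl fun J _ => h1 J, ← Finset.sum_filter,
    Finset.filter_mem_eq_inter, Finset.univ_inter, Finset.sum_powerset_neg_one_pow_card]
  by_cases hm : m = 0
  · subst hm
    simp
  · rw [if_neg hm, if_neg]
    intro h5
    apply hm
    ext i
    rw [Finset.filter_eq_empty_iff] at h5
    have := h5 (Finset.mem_univ i)
    simp only [Finsupp.coe_zero, Pi.zero_apply]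
    omega

end Pool.Agent.MPb0eC
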