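import Pool.Agent.Lib.MP_b0e20b_ag_C.Defs

/-!
# MP_b0e20b_ag, block C: the power series behind the count
-/

set_option autoImplicit false

open Finset

namespace Pool.Agent.MPb0eC

variable {d : ℕ}

/-- Multi-indices as finitely supported functions. -/
noncomputable def fs (n : Fin d → ℕ) : Fin d →₀ ℕ := Finsupp.equivFunOnFinite.symm n

theorem fs_apply (n : Fin d → ℕ) (i : Fin d) : fs n i = n i := rfl

theorem fs_coe (m : Fin d →₀ ℕ) : fs (⇑m) = m := by
  ext i; rfl

theorem coe_fs (n : Fin d → ℕ) : ⇑(fs n) = n := rfl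

/-- The power series with given coefficients. -/
noncomputable def ser (f : (Fin d → ℕ) → ℤ) : MvPowerSeries (Fin d) ℤ := fun m => f m

theorem coeff_ser (f : (Fin d → ℕ) → ℤ) (m : Fin d →₀ ℕ) :
    MvPowerSeries.coeff m (ser f) = f m := rfl

/-- The monomial of a set of factors. -/
noncomputable def xs (J : Finset (Fin d)) : MvPowerSeries (Fin d) ℤ :=
  ∏ i ∈ J, MvPowerSeries.X i

theorem xs_eq (J : Finset (Fin d)) :
    xs J = MvPowerSeries.monomial (fs (ind J)) (1 : ℤ) := by
  classical
  induction J using Finset.induction_on with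
  | empty =>
    have : fs (ind (∅ : Finset (Fin d))) = 0 := by
      ext i; simp [fs_apply, ind]
    rw [this]
    simp [xs]
  | insert a s ha ih =>
    unfold xs at *
    rw [Finset.prod_insert ha, ih, MvPowerSeries.X_def, MvPowerSeries.monomial_mul_monomial]
    congr 1
    · congr 1
      ext i
      simp only [Finsupp.add_apply, fs_apply, ind, Finsupp.single_apply, Finset.mem_insert]
      by_cases h : a = i
      · subst h; simp [ha]
      · have h' : ¬ i = a := fun h2 => h h2.symm
        simp [h, h']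

theorem coeff_xs_mul (J : Finset (Fin d)) (g : MvPowerSeries (Fin d) ℤ) (m : Fin d →₀ ℕ) :
    MvPowerSeries.coeff m (xs J * g) =
      if ∀ i ∈ J, 1 ≤ m i then MvPowerSeries.coeff (fs ((m : Fin d → ℕ) - ind J)) g
      else 0 := by
  rw [xs_eq, MvPowerSeries.coeff_monomial_mul]
  have h1 : (fs (ind J) ≤ m) ↔ (∀ i ∈ J, 1 ≤ m i) := by
    rw [← ind_le]
    constructor
    · intro h i; exact h i
    · intro h i; exact h i
  have h2 : m - fs (ind J) = fs ((m : Fin d → ℕ) - ind J) := by
    ext i; rfl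
  by_cases h : ∀ i ∈ J, 1 ≤ m i
  · rw [if_pos (h1.2 h), if_pos h, h2, one_mul]
  · rw [if_neg (fun h3 => h (h1.1 h3)), if_neg h]

/-- All coefficients are nonnegative. -/
def NNc (f : MvPowerSeries (Fin d) ℤ) : Prop := ∀ m, 0 ≤ MvPowerSeries.coeff m f

theorem NNc.add {f g : MvPowerSeries (Fin d) ℤ} (hf : NNc f) (hg : NNc g) : NNc (f + g) := by
  intro m; rw [map_add]; exact add_nonneg (hf m) (hg m)

theorem NNc.mul {f g : MvPowerSeries (Fin d) ℤ} (hf : NNc f) (hg : NNc g) : NNc (f * g) := by
  classical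
  intro m; rw [MvPowerSeries.coeff_mul]
  exact Finset.sum_nonneg fun p _ => mul_nonneg (hf _) (hg _)

theorem NNc.sum {ι : Type*} {s : Finset ι} {f : ι → MvPowerSeries (Fin d) ℤ}
    (h : ∀ i ∈ s, NNc (f i)) : NNc (∑ i ∈ s, f i) := by
  intro m; rw [map_sum]; exact Finset.sum_nonneg fun i hi => h i hi m

theorem NNc.one : NNc (1 : MvPowerSeries (Fin d) ℤ) := by
  classical
  intro m; rw [MvPowerSeries.coeff_one]; split_ifs <;> simp

theorem NNc.prod {ι : Type*} {s : Finset ι} {f : ι → MvPowerSeries (Fin d) ℤ}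
    (h : ∀ i ∈ s, NNc (f i)) : NNc (∏ i ∈ s, f i) := by
  classical
  induction s using Finset.induction_on with
  | empty => simpa using NNc.one
  | insert a s ha ih =>
    rw [Finset.prod_insert ha]
    exact (h a (Finset.mem_insert_self _ _)).mul
      (ih fun i hi => h i (Finset.mem_insert_of_mem hi))

theorem NNc.X (i : Fin d) : NNc (MvPowerSeries.X i : MvPowerSeries (Fin d) ℤ) := by
  classical
  intro m; rw [MvPowerSeries.coeff_X]; split_ifs <;> simp

theorem NNc.xs (J : Finset (Fin d)) : NNc (xs J) := NNc.prod fun i _ => NNc.X i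

theorem NNc.nat (k : ℕ) : NNc ((k : ℕ) : MvPowerSeries (Fin d) ℤ) := by
  induction k with
  | zero => intro m; simp
  | succ k ih => rw [Nat.cast_succ]; exact ih.add NNc.one

theorem NNc.ser {f : (Fin d → ℕ) → ℤ} (h : ∀ n, 0 ≤ f n) : NNc (ser f) := fun m => h m

end Pool.Agent.MPb0eC
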